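import Pool.Agent.Q230.LAS.Def

/-!
# Behaviours: the finite monoid and the counting argument
-/

set_option autoImplicit false

namespace Pool.Agent.Q230.LAS

section idem
variable {S : Type} [Monoid S] [Finite S]

lemma idem_pow (s : S) : ∃ k : ℕ, 1 ≤ k ∧ s ^ k * s ^ k = s ^ k := by
  obtain ⟨i, j, hij, h⟩ := Finite.exists_ne_map_eq_of_infinite (fun n : ℕ => s ^ n)
  wlog hlt : i < j generalizing i j
  · exact this j i hij.symm h.symm (lt_of_le_of_ne (not_lt.1 hlt) hij.symm)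
  obtain ⟨d, hd⟩ : ∃ d, j = i + d := ⟨j - i, by omega⟩
  have hd1 : 1 ≤ d := by omega
  subst hd
  have h1 : ∀ m r : ℕ, s ^ (i + r + m * d) = s ^ (i + r) := by
    intro m
    induction m with
    | zero => intro r; simp
    | succ m ih =>
      intro r
      have e1 : i + r + (m + 1) * d = (i + d) + (r + m * d) := by ring
      rw [e1, pow_add, ← h, ← pow_add]
      have e2 : i + (r + m * d) = i + r + m * d := by ring
      rw [e2, ih]
  refine ⟨(i + 1) * d, ?_, ?_⟩
  · nlinarith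
  · rw [← pow_add]
    have h2 : i ≤ (i + 1) * d := by nlinarith
    obtain ⟨r, hr⟩ : ∃ r, (i + 1) * d = i + r := ⟨(i + 1) * d - i, by omega⟩
    have h3 := h1 (i + 1) r
    rw [← hr] at h3
    exact h3

/-- In a finite monoid every nonempty subsemigroup `V` contains an idempotent `e` such that all
`e x e`, `x ∈ V`, have a power equal to `e`. -/
lemma exists_min_idem (V : Set S) (hne : V.Nonempty) (hV : ∀ x ∈ V, ∀ y ∈ V, x * y ∈ V) :
    ∃ e ∈ V, e * e = e ∧ ∀ x ∈ V, ∃ k : ℕ, 1 ≤ k ∧ (e * x * e) ^ k = e := by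
  classical
  have hpow : ∀ x ∈ V, ∀ k : ℕ, 1 ≤ k → x ^ k ∈ V := by
    intro x hx k hk
    induction k, hk using Nat.le_induction with
    | base => simpa using hx
    | succ n _ ih => rw [pow_succ]; exact hV _ ih _ hx
  let I : Set S := {e | e ∈ V ∧ e * e = e}
  have hI : I.Nonempty := by
    obtain ⟨x, hx⟩ := hne
    obtain ⟨k, hk, h⟩ := idem_pow x
    exact ⟨x ^ k, hpow x hx k hk, h⟩
  let m : S → ℕ := fun e => Set.ncard ((fun z => e * z * e) '' V)
  obtain ⟨e, ⟨heV, hee⟩, hmin⟩ := Set.exists_min_image I m (Set.toFinite _) hI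
  refine ⟨e, heV, hee, ?_⟩
  intro x hx
  have hexe : e * x * e ∈ V := hV _ (hV _ heV _ hx) _ heV
  obtain ⟨k, hk, hid⟩ := idem_pow (e * x * e)
  refine ⟨k, hk, ?_⟩
  set f := (e * x * e) ^ k with hf
  have hfV : f ∈ V := hpow _ hexe k hk
  obtain ⟨k', rfl⟩ : ∃ k', k = k' + 1 := ⟨k - 1, by omega⟩
  have hef : e * f = f := by
    rw [hf, pow_succ', ← mul_assoc, ← mul_assoc, ← mul_assoc, hee]
  have hfe : f * e = f := by
    rw [hf, pow_succ, mul_assoc, mul_assoc (e * x) e e, hee]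
  have hsub : (fun z => f * z * f) '' V ⊆ (fun z => e * z * e) '' V := by
    rintro _ ⟨z, hz, rfl⟩
    refine ⟨f * z * f, hV _ (hV _ hfV _ hz) _ hfV, ?_⟩
    simp only
    calc e * (f * z * f) * e = (e * f) * z * (f * e) := by simp only [mul_assoc]
      _ = f * z * f := by rw [hef, hfe]
  have heq : (fun z => f * z * f) '' V = (fun z => e * z * e) '' V :=
    Set.eq_of_subset_of_ncard_le hsub (hmin f ⟨hfV, hid⟩) (Set.toFinite _)
  have he : e ∈ (fun z => f * z * f) '' V := by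
    rw [heq]
    exact ⟨e, heV, by simp only; rw [hee, hee]⟩
  obtain ⟨z, -, hz⟩ := he
  simp only at hz
  calc f = f * e := hfe.symm
    _ = f * (f * z * f) := by rw [hz]
    _ = (f * f) * z * f := by simp only [mul_assoc]
    _ = f * z * f := by rw [hid]
    _ = e := hz

end idem

/-- behaviours: `τ` the transducer, `α` and `β` the traversals to the right and to the left, which
depend on the state of the transducer at the left border -/
@[ext] structure Beh (P : Type) where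
  τ : P → P
  α : P → P → P
  β : P → P → P

variable {P : Type}

instance : Monoid (Beh P) where
  mul m n := ⟨fun p => n.τ (m.τ p), fun p q => n.α (m.τ p) (m.α p q),
    fun p q => m.β p (n.β (m.τ p) q)⟩
  one := ⟨id, fun _ => id, fun _ => id⟩
  mul_assoc _ _ _ := rfl
  one_mul _ := rfl
  mul_one _ := rfl

lemma mul_τ (m n : Beh P) (p : P) : (m * n).τ p = n.τ (m.τ p) := rfl
lemma mul_α (m n : Beh P) (p q : P) : (m * n).α p q = n.α (m.τ p) (m.α p q) := rfl
lemma mul_β (m n : Beh P) (p q : P) : (m * n).β p q = m.β p (n.β (m.τ p) q) := rfl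

instance [Finite P] : Finite (Beh P) :=
  Finite.of_injective (fun m : Beh P => (m.τ, m.α, m.β)) fun m n h => by
    simp only [Prod.mk.injEq] at h
    exact Beh.ext h.1 h.2.1 h.2.2

/-- `m` acts injectively on the ranges of the idempotent `e` -/
structure Inj (e m : Beh P) : Prop where
  t : ∀ p p', e.τ p = p → e.τ p' = p' → m.τ p = m.τ p' → p = p'
  a : ∀ p q q', e.τ p = p → e.α p q = q → e.α p q' = q' → m.α p q = m.α p q' → q = q'
  b : ∀ p q q', e.τ p = p → e.β (m.τ p) q = q → e.β (m.τ p) q' = q' → m.β p q = m.β p q' → q = q'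

section
variable {e m n : Beh P}

lemma tau_fix (_ : e * e = e) (hme : m * e = m) (p : P) : e.τ (m.τ p) = m.τ p := by
  rw [← mul_τ, hme]

lemma alpha_fix (hme : m * e = m) (p q : P) : e.α (m.τ p) (m.α p q) = m.α p q := by
  rw [← mul_α, hme]

lemma beta_fix (hem : e * m = m) {p : P} (hp : e.τ p = p) (q : P) :
    e.β p (m.β p q) = m.β p q := by
  have h := mul_β e m p q
  rw [hem, hp] at h
  exact h.symm

lemma Inj.mul (he : e * e = e) (hme : m * e = m)
    (hen : e * n = n) (h1 : Inj e m) (h2 : Inj e n) : Inj e (m * n) := by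
  refine ⟨?_, ?_, ?_⟩
  · intro p p' hp hp' h
    exact h1.t p p' hp hp' (h2.t _ _ (tau_fix he hme p) (tau_fix he hme p') h)
  · intro p q q' hp hq hq' h
    exact h1.a p q q' hp hq hq'
      (h2.a _ _ _ (tau_fix he hme p) (alpha_fix hme p q) (alpha_fix hme p q') h)
  · intro p q q' hp hq hq' h
    have hp1 := tau_fix he hme p
    refine h2.b _ q q' hp1 hq hq' ?_
    exact h1.b p _ _ hp (beta_fix hen hp1 q) (beta_fix hen hp1 q') h

lemma Inj.pow (he : e * e = e) (hme : m * e = m) (hem : e * m = m) (h1 : Inj e m) (k : ℕ) :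
    Inj e (m ^ (k + 1)) ∧ m ^ (k + 1) * e = m ^ (k + 1) ∧ e * m ^ (k + 1) = m ^ (k + 1) := by
  induction k with
  | zero => simpa using ⟨h1, hme, hem⟩
  | succ k ih =>
    obtain ⟨i1, i2, i3⟩ := ih
    rw [pow_succ _ (k + 1)]
    refine ⟨Inj.mul he i2 hem i1 h1, ?_, ?_⟩
    · rw [mul_assoc, hme]
    · rw [← mul_assoc, i3]

lemma Inj.idem (he : e * e = e) (hme : m * e = m) (hem : e * m = m) (hm : m * m = m)
    (h : Inj e m) : m = e := by
  have ht : ∀ p, e.τ p = p → m.τ p = p := by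
    intro p hp
    refine h.t _ _ (tau_fix he hme p) hp ?_
    rw [← mul_τ, hm]
  have hτ : m.τ = e.τ := by
    funext p
    have h1 : m.τ p = m.τ (e.τ p) := by rw [← mul_τ, hem]
    rw [h1]
    exact ht _ (tau_fix he he p)
  have hα : m.α = e.α := by
    funext p q
    have h1 : m.α p q = m.α (e.τ p) (e.α p q) := by rw [← mul_α, hem]
    rw [h1]
    have hp := tau_fix he he p
    refine h.a _ _ _ hp ?_ (alpha_fix he p q) ?_
    · have h2 := alpha_fix hme (e.τ p) (e.α p q)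
      rw [ht _ hp] at h2
      exact h2
    · have h3 := mul_α m m (e.τ p) (e.α p q)
      rw [hm, ht _ hp] at h3
      exact h3.symm
  have hβ : m.β = e.β := by
    have key : ∀ p q, e.τ p = p → e.β p q = q → m.β p q = q := by
      intro p q hp hq
      have e1 := ht p hp
      refine h.b p _ _ hp ?_ (by rw [e1]; exact hq) ?_
      · rw [e1]; exact beta_fix hem hp q
      · have h3 := mul_β m m p q
        rw [hm, e1] at h3
        exact h3.symm
    funext p q
    have h1 : m.β p q = e.β p (m.β (e.τ p) q) := by rw [← mul_β, hem]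
    have hp := tau_fix he he p
    have h2 : m.β (e.τ p) q = m.β (e.τ p) (e.β (e.τ p) q) := by
      have h3 := mul_β m e (e.τ p) q
      rw [hme, ht _ hp] at h3
      exact h3
    rw [h1, h2, key _ _ hp (beta_fix he hp q), ← mul_β, he]
  exact Beh.ext hτ hα hβ

/-- an injective element has a power equal to `e` -/
lemma Inj.exists_pow [Finite P] (he : e * e = e) (hme : m * e = m) (hem : e * m = m)
    (h : Inj e m) : ∃ k : ℕ, 1 ≤ k ∧ m ^ k = e := by
  obtain ⟨k, hk, hid⟩ := idem_pow m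
  refine ⟨k, hk, ?_⟩
  obtain ⟨k', rfl⟩ : ∃ k', k = k' + 1 := ⟨k - 1, by omega⟩
  obtain ⟨i1, i2, i3⟩ := Inj.pow he hme hem h k'
  exact Inj.idem he i2 i3 hid i1

/-- an element with a power equal to `e` is injective -/
lemma inj_of_pow (_ : e * e = e) {k : ℕ} (hk : m ^ (k + 1) = e) : Inj e m := by
  have h1 : m * m ^ k = e := by rw [← pow_succ', hk]
  have h2 : m ^ k * m = e := by rw [← pow_succ, hk]
  refine ⟨?_, ?_, ?_⟩
  · intro p p' hp hp' h
    rw [← hp, ← hp', ← h1, mul_τ, mul_τ, h]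
  · intro p q q' hp hq hq' h
    rw [← hq, ← hq', ← h1, mul_α, mul_α, h]
  · intro p q q' hp hq hq' h
    have h3 : (m ^ k).τ (m.τ p) = p := by rw [← mul_τ, h1, hp]
    have h4 : ∀ x, e.β (m.τ p) x = (m ^ k).β (m.τ p) (m.β p x) := by
      intro x
      rw [← h2, mul_β, h3]
    rw [← hq, ← hq', h4, h4, h]

end

/-- The counting argument. -/
theorem count {E P : Type} [Fintype E] [DecidableEq E] [Fintype P] (V : Set (Beh P))
    (hne : V.Nonempty) (hV : ∀ x ∈ V, ∀ y ∈ V, x * y ∈ V) (a b : Finset E → Beh P)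
    (hgood : ∀ X Y : Finset E, (X ∩ Y).Nonempty → a X * b Y ∈ V)
    (hbad : ∀ e ∈ V, ∀ X Y : Finset E, X ∩ Y = ∅ → ∀ k : ℕ, 1 ≤ k →
      (e * (a X * b Y) * e) ^ k ≠ e) :
    2 ^ Fintype.card E ≤ 3 * Fintype.card P ^ 7 := by
  classical
  obtain ⟨e, heV, he, hmin⟩ := exists_min_idem V hne hV
  -- the two halves
  set a' : Finset E → Beh P := fun X => e * a X with ha'
  set b' : Finset E → Beh P := fun Y => b Y * e with hb'
  have hm : ∀ X Y, e * (a X * b Y) * e = a' X * b' Y := by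
    intro X Y
    simp only [ha', hb', mul_assoc]
  have hem : ∀ X Y, e * (a' X * b' Y) = a' X * b' Y := by
    intro X Y
    simp only [ha', hb', ← mul_assoc, he]
  have hme : ∀ X Y, a' X * b' Y * e = a' X * b' Y := by
    intro X Y
    simp only [ha', hb']
    rw [mul_assoc, mul_assoc (b Y) e e, he]
  clear_value a' b'
  have hinj : ∀ X Y : Finset E, (X ∩ Y).Nonempty → Inj e (a' X * b' Y) := by
    intro X Y h
    obtain ⟨k, hk, hk2⟩ := hmin _ (hgood X Y h)
    obtain ⟨k', rfl⟩ : ∃ k', k = k' + 1 := ⟨k - 1, by omega⟩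
    rw [hm] at hk2
    exact inj_of_pow he hk2
  have hninj : ∀ X : Finset E, ¬ Inj e (a' X * b' Xᶜ) := by
    intro X h
    obtain ⟨k, hk, hk2⟩ := Inj.exists_pow he (hme _ _) (hem _ _) h
    rw [← hm] at hk2
    exact hbad e heV X Xᶜ (Finset.inter_compl X) k hk hk2
  -- certificates
  let D : Finset E → Fin 3 × (Fin 7 → P) → Prop := fun X c =>
    (c.1 = 0 ∧ c.2 0 ≠ c.2 1 ∧ e.τ (c.2 0) = c.2 0 ∧ e.τ (c.2 1) = c.2 1 ∧
      (a' X).τ (c.2 0) = c.2 2 ∧ (a' X).τ (c.2 1) = c.2 3) ∨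
    (c.1 = 1 ∧ e.τ (c.2 0) = c.2 0 ∧ c.2 1 ≠ c.2 2 ∧ e.α (c.2 0) (c.2 1) = c.2 1 ∧
      e.α (c.2 0) (c.2 2) = c.2 2 ∧ (a' X).τ (c.2 0) = c.2 3 ∧
      (a' X).α (c.2 0) (c.2 1) = c.2 4 ∧ (a' X).α (c.2 0) (c.2 2) = c.2 5) ∨
    (c.1 = 2 ∧ e.τ (c.2 0) = c.2 0 ∧ c.2 1 ≠ c.2 2 ∧ e.β (c.2 6) (c.2 1) = c.2 1 ∧
      e.β (c.2 6) (c.2 2) = c.2 2 ∧ (a' X).τ (c.2 0) = c.2 3 ∧
      (a' X).β (c.2 0) (c.2 4) = (a' X).β (c.2 0) (c.2 5))
  let F : Finset E → Fin 3 × (Fin 7 → P) → Prop := fun Y c =>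
    (c.1 = 0 ∧ (b' Y).τ (c.2 2) = (b' Y).τ (c.2 3)) ∨
    (c.1 = 1 ∧ (b' Y).α (c.2 3) (c.2 4) = (b' Y).α (c.2 3) (c.2 5)) ∨
    (c.1 = 2 ∧ (b' Y).τ (c.2 3) = c.2 6 ∧ (b' Y).β (c.2 3) (c.2 1) = c.2 4 ∧
      (b' Y).β (c.2 3) (c.2 2) = c.2 5)
  have hDF : ∀ X Y c, D X c → F Y c → ¬ Inj e (a' X * b' Y) := by
    rintro X Y ⟨i, c⟩ hD hF hI
    rcases hD with ⟨h0, h1, h2, h3, h4, h5⟩ | ⟨h0, h1, h2, h3, h4, h5, h6, h7⟩ |
      ⟨h0, h1, h2, h3, h4, h5, h6⟩
    · simp only at h0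
      subst h0
      simp only [F] at hF
      rcases hF with ⟨-, hF⟩ | ⟨h, -⟩ | ⟨h, -⟩
      · refine h1 (hI.t _ _ h2 h3 ?_)
        rw [mul_τ, mul_τ, h4, h5]
        exact hF
      · exact absurd h (by decide)
      · exact absurd h (by decide)
    · simp only at h0
      subst h0
      simp only [F] at hF
      rcases hF with ⟨h, -⟩ | ⟨-, hF⟩ | ⟨h, -⟩
      · exact absurd h (by decide)
      · refine h2 (hI.a _ _ _ h1 h3 h4 ?_)
        rw [mul_α, mul_α, h5, h6, h7]
        exact hF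
      · exact absurd h (by decide)
    · simp only at h0
      subst h0
      simp only [F] at hF
      rcases hF with ⟨h, -⟩ | ⟨h, -⟩ | ⟨-, hF1, hF2, hF3⟩
      · exact absurd h (by decide)
      · exact absurd h (by decide)
      · have h7 : (a' X * b' Y).τ (c 0) = c 6 := by
          rw [mul_τ, h5]
          exact hF1
        refine h2 (hI.b _ _ _ h1 (by rw [h7]; exact h3) (by rw [h7]; exact h4) ?_)
        rw [mul_β, mul_β, h5, hF2, hF3]
        exact h6
  have hex : ∀ X : Finset E, ∃ c, D X c ∧ F Xᶜ c := by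
    intro X
    by_contra hcon
    apply hninj X
    refine ⟨?_, ?_, ?_⟩
    · intro p p' hp hp' h
      by_contra hpp
      apply hcon
      refine ⟨(0, ![p, p', (a' X).τ p, (a' X).τ p', p, p, p]), Or.inl ?_, Or.inl ?_⟩
      · exact ⟨rfl, hpp, hp, hp', rfl, rfl⟩
      · exact ⟨rfl, h⟩
    · intro p q q' hp hq hq' h
      by_contra hpp
      apply hcon
      refine ⟨(1, ![p, q, q', (a' X).τ p, (a' X).α p q, (a' X).α p q', p]),
        Or.inr (Or.inl ?_), Or.inr (Or.inl ?_)⟩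
      · exact ⟨rfl, hp, hpp, hq, hq', rfl, rfl, rfl⟩
      · exact ⟨rfl, h⟩
    · intro p q q' hp hq hq' h
      by_contra hpp
      apply hcon
      refine ⟨(2, ![p, q, q', (a' X).τ p, (b' Xᶜ).β ((a' X).τ p) q,
        (b' Xᶜ).β ((a' X).τ p) q', (b' Xᶜ).τ ((a' X).τ p)]),
        Or.inr (Or.inr ?_), Or.inr (Or.inr ?_)⟩
      · exact ⟨rfl, hp, hpp, hq, hq', rfl, h⟩
      · exact ⟨rfl, rfl, rfl, rfl⟩
  choose c hc1 hc2 using hex
  have hcinj : Function.Injective c := by
    intro X Y hXY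
    by_contra hne'
    have h1 : X ∩ Yᶜ = ∅ := by
      by_contra h
      refine hDF X Yᶜ (c X) (hc1 X) ?_ (hinj X Yᶜ (Finset.nonempty_iff_ne_empty.2 h))
      rw [hXY]
      exact hc2 Y
    have h2 : Y ∩ Xᶜ = ∅ := by
      by_contra h
      refine hDF Y Xᶜ (c Y) (hc1 Y) ?_ (hinj Y Xᶜ (Finset.nonempty_iff_ne_empty.2 h))
      rw [← hXY]
      exact hc2 X
    apply hne'
    ext x
    constructor
    · intro hx
      by_contra hy
      have : x ∈ X ∩ Yᶜ := by simp [hx, hy]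
      rw [h1] at this
      simp at this
    · intro hy
      by_contra hx
      have : x ∈ Y ∩ Xᶜ := by simp [hx, hy]
      rw [h2] at this
      simp at this
  have hcard := Fintype.card_le_of_injective c hcinj
  simpa [Fintype.card_finset] using hcard

end Pool.Agent.Q230.LAS
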