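import Pool.Agent.Q230.LAS.Mach

/-!
# Words made of blocks
-/

set_option autoImplicit false

namespace Pool.Agent.Q230.LAS

variable {k : ℕ}

/-- bit strings of length `k + 1` -/
abbrev El (k : ℕ) := Fin (k + 1) → Bool

/-- the letters of a bit string at the given positions -/
def lt (a : El k) (l : List (Fin (k + 1))) : List (Inp k) := l.map fun t => .bit t (a t)

abbrev lets (a : El k) : List (Inp k) := lt a (List.finRange (k + 1))

def cA (l : List (El k)) : List (Inp k) := l.flatMap fun a => .sA :: lets a

def cB (l : List (El k)) : List (Inp k) := l.flatMap fun a => .sB :: lets a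

noncomputable def wa (X : Finset (El k)) : List (Inp k) := cA X.toList

noncomputable def wb (Y : Finset (El k)) : List (Inp k) := cB Y.toList ++ [.hash]

noncomputable def blk (x : Finset (El k) × Finset (El k)) : List (Inp k) := wa x.1 ++ wb x.2

noncomputable def word (l : List (Finset (El k) × Finset (El k))) : List (Inp k) := l.flatMap blk

/-- the unmarked copy -/
def unm (w : List (Inp k)) : List (Wk k) := w.map .inp

lemma unm_append (w w' : List (Inp k)) : unm (w ++ w') = unm w ++ unm w' := by simp [unm]

/-! ### The checks on letters -/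

lemma run_s0 (t : Fin (k + 1)) (a : El k) (l : List (Fin (k + 1))) :
    run t .s0 (unm (lt a l)) = some .s0 := by
  induction l with
  | nil => rfl
  | cons x l ih => simpa [lt, unm, run, fstep] using ih

lemma run_gotA (t : Fin (k + 1)) (b : Bool) (a : El k) (l : List (Fin (k + 1))) :
    run t (.gotA b) (unm (lt a l)) = some (.gotA b) := by
  induction l with
  | nil => rfl
  | cons x l ih => simpa [lt, unm, run, fstep] using ih

lemma run_gotB (t : Fin (k + 1)) (a : El k) (l : List (Fin (k + 1))) :
    run t .gotB (unm (lt a l)) = some .gotB := by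
  induction l with
  | nil => rfl
  | cons x l ih => simpa [lt, unm, run, fstep] using ih

lemma run_actA (t : Fin (k + 1)) (a : El k) (l : List (Fin (k + 1))) (ht : t ∈ l) :
    run t .actA (unm (lt a l)) = some (.gotA (a t)) := by
  induction l with
  | nil => simp at ht
  | cons x l ih =>
    by_cases hx : x = t
    · subst hx
      simpa [lt, unm, run, fstep] using run_gotA x (a x) a l
    · have ht' : t ∈ l := by
        rcases List.mem_cons.1 ht with h | h
        · exact absurd h.symm hx
        · exact h
      simpa [lt, unm, run, fstep, hx] using ih ht'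

lemma run_actB (t : Fin (k + 1)) (c : Bool) (a : El k) (l : List (Fin (k + 1))) (ht : t ∈ l) :
    run t (.actB c) (unm (lt a l)) = if a t = c then some .gotB else none := by
  induction l with
  | nil => simp at ht
  | cons x l ih =>
    by_cases hx : x = t
    · subst hx
      by_cases hc : a x = c
      · simpa [lt, unm, run, fstep, hc] using run_gotB x a l
      · simp [lt, unm, run, fstep, hc]
    · have ht' : t ∈ l := by
        rcases List.mem_cons.1 ht with h | h
        · exact absurd h.symm hx
        · exact h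
      simpa [lt, unm, run, fstep, hx] using ih ht'

lemma run_cons (t : Fin (k + 1)) (s s' : St) (g : Wk k) (v : List (Wk k))
    (h : fstep t s g = some s') : run t s (g :: v) = run t s' v := by
  simp [run, h]

lemma run_cons_none (t : Fin (k + 1)) (s : St) (g : Wk k) (v : List (Wk k))
    (h : fstep t s g = none) : run t s (g :: v) = none := by
  simp [run, h]

lemma run_app (t : Fin (k + 1)) (s s' : St) (v v' : List (Wk k)) (h : run t s v = some s') :
    run t s (v ++ v') = run t s' v' := by
  rw [run_append, h]; rfl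

/-! ### Unmarked parts -/

lemma runA_s0 (t : Fin (k + 1)) (l : List (El k)) : run t .s0 (unm (cA l)) = some .s0 := by
  induction l with
  | nil => rfl
  | cons a l ih =>
    have e : unm (cA (a :: l)) = .inp .sA :: (unm (lets a) ++ unm (cA l)) := by
      simp [cA, unm]
    rw [e, run_cons t .s0 .s0 _ _ rfl, run_app t .s0 .s0 _ _ (run_s0 t a _), ih]

lemma runA_gotA (t : Fin (k + 1)) (b : Bool) (l : List (El k)) :
    run t (.gotA b) (unm (cA l)) = some (.gotA b) := by
  induction l with
  | nil => rfl
  | cons a l ih =>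
    have e : unm (cA (a :: l)) = .inp .sA :: (unm (lets a) ++ unm (cA l)) := by
      simp [cA, unm]
    rw [e, run_cons t (.gotA b) (.gotA b) _ _ rfl, run_app t _ _ _ _ (run_gotA t b a _), ih]

lemma runB_gotA (t : Fin (k + 1)) (b : Bool) (l : List (El k)) :
    run t (.gotA b) (unm (cB l)) = some (.gotA b) := by
  induction l with
  | nil => rfl
  | cons a l ih =>
    have e : unm (cB (a :: l)) = .inp .sB :: (unm (lets a) ++ unm (cB l)) := by
      simp [cB, unm]
    rw [e, run_cons t (.gotA b) (.gotA b) _ _ rfl, run_app t _ _ _ _ (run_gotA t b a _), ih]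

lemma runB_gotB (t : Fin (k + 1)) (l : List (El k)) :
    run t .gotB (unm (cB l)) = some .gotB := by
  induction l with
  | nil => rfl
  | cons a l ih =>
    have e : unm (cB (a :: l)) = .inp .sB :: (unm (lets a) ++ unm (cB l)) := by
      simp [cB, unm]
    rw [e, run_cons t .gotB .gotB _ _ rfl, run_app t _ _ _ _ (run_gotB t a _), ih]

/-! ### Good words are accepted -/

lemma mk_unm (w : List (Inp k)) : List.Forall₂ mk1 w (unm w) := by
  induction w with
  | nil => exact List.Forall₂.nil
  | cons a w ih => exact List.Forall₂.cons (Or.inl rfl) ih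

lemma good_blk {x : Finset (El k) × Finset (El k)} (h : (x.1 ∩ x.2).Nonempty) :
    ∃ v, List.Forall₂ mk1 (blk x) v ∧ OK v := by
  obtain ⟨a, ha⟩ := h
  rw [Finset.mem_inter] at ha
  obtain ⟨l1, l2, h1⟩ := List.append_of_mem (Finset.mem_toList.2 ha.1)
  obtain ⟨m1, m2, h2⟩ := List.append_of_mem (Finset.mem_toList.2 ha.2)
  refine ⟨unm (cA l1) ++ (.mA :: (unm (lets a) ++ (unm (cA l2) ++ (unm (cB m1) ++
    (.mB :: (unm (lets a) ++ (unm (cB m2) ++ [.inp .hash]))))))), ?_, ?_⟩
  · have e : blk x = cA l1 ++ (.sA :: (lets a ++ (cA l2 ++ (cB m1 ++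
        (.sB :: (lets a ++ (cB m2 ++ [.hash]))))))) := by
      simp [blk, wa, wb, h1, h2, cA, cB]
    rw [e]
    refine List.rel_append (mk_unm _) (List.Forall₂.cons (Or.inr (Or.inl ⟨rfl, rfl⟩)) ?_)
    refine List.rel_append (mk_unm _) (List.rel_append (mk_unm _) (List.rel_append (mk_unm _) ?_))
    refine List.Forall₂.cons (Or.inr (Or.inr ⟨rfl, rfl⟩)) ?_
    exact List.rel_append (mk_unm _) (List.rel_append (mk_unm _) (mk_unm _))
  · intro t
    have ht : t ∈ List.finRange (k + 1) := List.mem_finRange t
    rw [run_app t _ _ _ _ (runA_s0 t l1), run_cons t .s0 .actA _ _ rfl,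
      run_app t _ _ _ _ (run_actA t a _ ht), run_app t _ _ _ _ (runA_gotA t _ l2),
      run_app t _ _ _ _ (runB_gotA t _ m1), run_cons t (.gotA (a t)) (.actB (a t)) _ _ rfl,
      run_app t _ .gotB _ _ (by rw [lets, run_actB t _ a _ ht, if_pos rfl]),
      run_app t _ _ _ _ (runB_gotB t m2)]
    rfl

lemma good_word {l : List (Finset (El k) × Finset (El k))}
    (h : ∀ x ∈ l, (x.1 ∩ x.2).Nonempty) : ∃ v, List.Forall₂ mk1 (word l) v ∧ OK v := by
  induction l with
  | nil => exact ⟨[], List.Forall₂.nil, fun _ => rfl⟩
  | cons x l ih =>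
    obtain ⟨v1, h1, h2⟩ := good_blk (h x (by simp))
    obtain ⟨v2, h3, h4⟩ := ih fun y hy => h y (List.mem_cons_of_mem _ hy)
    refine ⟨v1 ++ v2, ?_, fun t => ?_⟩
    · have e : word (x :: l) = blk x ++ word l := by simp [word]
      rw [e]
      exact List.rel_append h1 h3
    · rw [run_app t _ _ _ _ (h2 t), h4 t]

/-! ### Words with a bad block are rejected -/

lemma mk_split {w1 w2 : List (Inp k)} {v : List (Wk k)} (h : List.Forall₂ mk1 (w1 ++ w2) v) :
    ∃ v1 v2, v = v1 ++ v2 ∧ List.Forall₂ mk1 w1 v1 ∧ List.Forall₂ mk1 w2 v2 := by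
  induction w1 generalizing v with
  | nil => exact ⟨[], v, rfl, List.Forall₂.nil, h⟩
  | cons a w ih =>
    simp only [List.cons_append] at h
    cases h with
    | @cons _ g _ v' h1 h2 =>
      obtain ⟨v1, v2, rfl, h3, h4⟩ := ih h2
      exact ⟨g :: v1, v2, rfl, List.Forall₂.cons h1 h3, h4⟩

lemma mk_lt {a : El k} {l : List (Fin (k + 1))} {v : List (Wk k)}
    (h : List.Forall₂ mk1 (lt a l) v) : v = unm (lt a l) := by
  induction l generalizing v with
  | nil =>
    simp only [lt, List.map_nil, List.forall₂_nil_left_iff] at h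
    rw [h]
    rfl
  | cons x l ih =>
    simp only [lt, List.map_cons] at h
    cases h with
    | @cons _ g _ v' h1 h2 =>
      have h3 := ih h2
      rcases h1 with h1 | ⟨h1, -⟩ | ⟨h1, -⟩
      · rw [h3, h1]; rfl
      · exact absurd h1 (by simp)
      · exact absurd h1 (by simp)

lemma markA' {l : List (El k)} {v : List (Wk k)} (h : List.Forall₂ mk1 (cA l) v) :
    (∀ t b, run t (.gotA b) v = some (.gotA b)) ∨ ∀ t b, run t (.gotA b) v = none := by
  induction l generalizing v with
  | nil =>
    simp only [cA, List.flatMap_nil, List.forall₂_nil_left_iff] at h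
    subst h
    exact Or.inl fun _ _ => rfl
  | cons a l ih =>
    have e : cA (a :: l) = .sA :: (lets a ++ cA l) := by simp [cA]
    rw [e] at h
    cases h with
    | @cons _ g _ v' h1 h2 =>
      obtain ⟨v1, v2, rfl, h3, h4⟩ := mk_split h2
      have h5 := mk_lt h3
      subst h5
      rcases h1 with rfl | ⟨-, rfl⟩ | ⟨h1, -⟩
      · rcases ih h4 with h6 | h6
        · left
          intro t b
          rw [run_cons t _ (.gotA b) _ _ rfl, run_app t _ _ _ _ (run_gotA t b a _), h6]
        · right
          intro t b
          rw [run_cons t _ (.gotA b) _ _ rfl, run_app t _ _ _ _ (run_gotA t b a _), h6]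
      · right
        intro t b
        exact run_cons_none t _ _ _ rfl
      · exact absurd h1 (by simp)

lemma markA {l : List (El k)} {v : List (Wk k)} (h : List.Forall₂ mk1 (cA l) v) :
    (∀ t, run t .s0 v = some .s0) ∨ (∃ a ∈ l, ∀ t, run t .s0 v = some (.gotA (a t))) ∨
      ∀ t, run t .s0 v = none := by
  induction l generalizing v with
  | nil =>
    simp only [cA, List.flatMap_nil, List.forall₂_nil_left_iff] at h
    subst h
    exact Or.inl fun _ => rfl
  | cons a l ih =>
    have e : cA (a :: l) = .sA :: (lets a ++ cA l) := by simp [cA]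
    rw [e] at h
    cases h with
    | @cons _ g _ v' h1 h2 =>
      obtain ⟨v1, v2, rfl, h3, h4⟩ := mk_split h2
      have h5 := mk_lt h3
      subst h5
      rcases h1 with rfl | ⟨-, rfl⟩ | ⟨h1, -⟩
      · have key : ∀ t, run t .s0 (Wk.inp Inp.sA :: (unm (lt a (List.finRange (k + 1))) ++ v2)) =
            run t .s0 v2 := fun t => by
          rw [run_cons t _ .s0 _ _ rfl, run_app t _ _ _ _ (run_s0 t a _)]
        rcases ih h4 with h6 | ⟨c, hc, h6⟩ | h6
        · exact Or.inl fun t => by rw [key, h6]
        · exact Or.inr (Or.inl ⟨c, List.mem_cons_of_mem _ hc, fun t => by rw [key, h6]⟩)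
        · exact Or.inr (Or.inr fun t => by rw [key, h6])
      · have key : ∀ t, run t .s0 (Wk.mA :: (unm (lt a (List.finRange (k + 1))) ++ v2)) =
            run t (.gotA (a t)) v2 := fun t => by
          rw [run_cons t _ .actA _ _ rfl,
            run_app t _ _ _ _ (run_actA t a _ (List.mem_finRange t))]
        rcases markA' h4 with h6 | h6
        · exact Or.inr (Or.inl ⟨a, by simp, fun t => by rw [key, h6]⟩)
        · exact Or.inr (Or.inr fun t => by rw [key, h6])
      · exact absurd h1 (by simp)

lemma markB0 {l : List (El k)} {v : List (Wk k)} (h : List.Forall₂ mk1 (cB l) v)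
    (t : Fin (k + 1)) : run t .s0 v = some .s0 ∨ run t .s0 v = none := by
  induction l generalizing v with
  | nil =>
    simp only [cB, List.flatMap_nil, List.forall₂_nil_left_iff] at h
    subst h
    exact Or.inl rfl
  | cons a l ih =>
    have e : cB (a :: l) = .sB :: (lets a ++ cB l) := by simp [cB]
    rw [e] at h
    cases h with
    | @cons _ g _ v' h1 h2 =>
      obtain ⟨v1, v2, rfl, h3, h4⟩ := mk_split h2
      have h5 := mk_lt h3
      subst h5
      rcases h1 with rfl | ⟨h1, -⟩ | ⟨-, rfl⟩
      · rw [run_cons t _ .s0 _ _ rfl, run_app t _ _ _ _ (run_s0 t a _)]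
        exact ih h4
      · exact absurd h1 (by simp)
      · right
        exact run_cons_none t _ _ _ rfl

lemma markB2 {l : List (El k)} {v : List (Wk k)} (h : List.Forall₂ mk1 (cB l) v) :
    (∀ t, run t .gotB v = some .gotB) ∨ ∀ t, run t .gotB v = none := by
  induction l generalizing v with
  | nil =>
    simp only [cB, List.flatMap_nil, List.forall₂_nil_left_iff] at h
    subst h
    exact Or.inl fun _ => rfl
  | cons a l ih =>
    have e : cB (a :: l) = .sB :: (lets a ++ cB l) := by simp [cB]
    rw [e] at h
    cases h with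
    | @cons _ g _ v' h1 h2 =>
      obtain ⟨v1, v2, rfl, h3, h4⟩ := mk_split h2
      have h5 := mk_lt h3
      subst h5
      rcases h1 with rfl | ⟨h1, -⟩ | ⟨-, rfl⟩
      · rcases ih h4 with h6 | h6
        · left
          intro t
          rw [run_cons t _ .gotB _ _ rfl, run_app t _ _ _ _ (run_gotB t a _), h6]
        · right
          intro t
          rw [run_cons t _ .gotB _ _ rfl, run_app t _ _ _ _ (run_gotB t a _), h6]
      · exact absurd h1 (by simp)
      · right
        intro t
        exact run_cons_none t _ _ _ rfl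

lemma markB1 {l : List (El k)} {v : List (Wk k)} (h : List.Forall₂ mk1 (cB l) v) :
    (∀ t b, run t (.gotA b) v = some (.gotA b)) ∨
      (∃ a ∈ l, ∀ t b, run t (.gotA b) v = if a t = b then some .gotB else none) ∨
      ∀ t b, run t (.gotA b) v = none := by
  induction l generalizing v with
  | nil =>
    simp only [cB, List.flatMap_nil, List.forall₂_nil_left_iff] at h
    subst h
    exact Or.inl fun _ _ => rfl
  | cons a l ih =>
    have e : cB (a :: l) = .sB :: (lets a ++ cB l) := by simp [cB]
    rw [e] at h
    cases h with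
    | @cons _ g _ v' h1 h2 =>
      obtain ⟨v1, v2, rfl, h3, h4⟩ := mk_split h2
      have h5 := mk_lt h3
      subst h5
      rcases h1 with rfl | ⟨h1, -⟩ | ⟨-, rfl⟩
      · have key : ∀ t b, run t (.gotA b)
            (Wk.inp Inp.sB :: (unm (lt a (List.finRange (k + 1))) ++ v2)) =
            run t (.gotA b) v2 := fun t b => by
          rw [run_cons t _ (.gotA b) _ _ rfl, run_app t _ _ _ _ (run_gotA t b a _)]
        rcases ih h4 with h6 | ⟨c, hc, h6⟩ | h6
        · exact Or.inl fun t b => by rw [key, h6]
        · exact Or.inr (Or.inl ⟨c, List.mem_cons_of_mem _ hc, fun t b => by rw [key, h6]⟩)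
        · exact Or.inr (Or.inr fun t b => by rw [key, h6])
      · exact absurd h1 (by simp)
      · have key : ∀ t b, run t (.gotA b)
            (Wk.mB :: (unm (lt a (List.finRange (k + 1))) ++ v2)) =
            if a t = b then run t .gotB v2 else none := fun t b => by
          rw [run_cons t _ (.actB b) _ _ rfl, run_append, run_actB t b a _ (List.mem_finRange t)]
          by_cases hc : a t = b
          · rw [if_pos hc, if_pos hc]; rfl
          · rw [if_neg hc, if_neg hc]; rfl
        rcases markB2 h4 with h6 | h6
        · exact Or.inr (Or.inl ⟨a, by simp, fun t b => by rw [key, h6]⟩)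
        · exact Or.inr (Or.inr fun t b => by rw [key, h6]; simp)

lemma bad_blk {x : Finset (El k) × Finset (El k)} {v : List (Wk k)}
    (h : List.Forall₂ mk1 (blk x) v) (hv : ∀ t, run t .s0 v ≠ none) :
    (x.1 ∩ x.2).Nonempty ∧ ∀ t, run t .s0 v = some .s0 := by
  have e : blk x = cA x.1.toList ++ (cB x.2.toList ++ [.hash]) := by simp [blk, wa, wb]
  rw [e] at h
  obtain ⟨v1, v', rfl, h1, h2⟩ := mk_split h
  obtain ⟨v2, v3, rfl, h3, h4⟩ := mk_split h2
  have hv3 : v3 = [.inp .hash] := by
    cases h4 with
    | @cons _ g _ v' h5 h6 =>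
      simp only [List.forall₂_nil_left_iff] at h6
      subst h6
      rcases h5 with rfl | ⟨h5, -⟩ | ⟨h5, -⟩
      · rfl
      · exact absurd h5 (by simp)
      · exact absurd h5 (by simp)
  subst hv3
  have t0 : Fin (k + 1) := 0
  rcases markA h1 with h5 | ⟨a, ha, h5⟩ | h5
  · exfalso
    apply hv t0
    rw [run_app t0 _ _ _ _ (h5 t0), run_append]
    rcases markB0 h3 t0 with h6 | h6 <;> rw [h6] <;> rfl
  · rcases markB1 h3 with h6 | ⟨b, hb, h6⟩ | h6
    · exfalso
      apply hv t0
      rw [run_app t0 _ _ _ _ (h5 t0), run_append, h6]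
      rfl
    · have hab : ∀ t, b t = a t := by
        intro t
        by_contra hne
        apply hv t
        rw [run_app t _ _ _ _ (h5 t), run_append, h6, if_neg hne]
        rfl
      refine ⟨⟨a, ?_⟩, fun t => ?_⟩
      · rw [Finset.mem_inter]
        refine ⟨Finset.mem_toList.1 ha, ?_⟩
        have hba : b = a := funext hab
        rw [← hba]
        exact Finset.mem_toList.1 hb
      · rw [run_app t _ _ _ _ (h5 t), run_append, h6, if_pos (hab t)]
        rfl
    · exfalso
      apply hv t0
      rw [run_app t0 _ _ _ _ (h5 t0), run_append, h6]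
      rfl
  · exfalso
    apply hv t0
    rw [run_append, h5]
    rfl

lemma bad_word {l : List (Finset (El k) × Finset (El k))} {v : List (Wk k)}
    (h : List.Forall₂ mk1 (word l) v) (hv : OK v) : ∀ x ∈ l, (x.1 ∩ x.2).Nonempty := by
  induction l generalizing v with
  | nil => intro x hx; simp at hx
  | cons x l ih =>
    have e : word (x :: l) = blk x ++ word l := by simp [word]
    rw [e] at h
    obtain ⟨v1, v2, rfl, h1, h2⟩ := mk_split h
    have hv1 : ∀ t, run t .s0 v1 ≠ none := by
      intro t h3
      have h4 := hv t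
      rw [run_append, h3] at h4
      simp at h4
    obtain ⟨h3, h4⟩ := bad_blk h1 hv1
    intro y hy
    rcases List.mem_cons.1 hy with rfl | hy
    · exact h3
    · refine ih h2 (fun t => ?_) y hy
      have h5 := hv t
      rw [run_app t _ _ _ _ (h4 t)] at h5
      exact h5

/-- the machine accepts a sequence of blocks iff all blocks are good -/
theorem word_mem_iff (l : List (Finset (El k) × Finset (El k))) :
    word l ∈ (MM k).lang ↔ ∀ x ∈ l, (x.1 ∩ x.2).Nonempty := by
  constructor
  · intro h
    obtain ⟨v, h1, h2⟩ := sound h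
    exact bad_word h1 h2
  · intro h
    obtain ⟨v, h1, h2⟩ := good_word h
    exact complete h1 h2

end Pool.Agent.Q230.LAS
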