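import Pool.Agent.Q230.LAS.Mach2

/-!
# Words made of blocks (machine of linear size)
-/

set_option autoImplicit false

namespace Pool.Agent.Q230.LAS.V2

variable {k : ℕ}

/-- bit strings of length `k + 1` -/
abbrev El (k : ℕ) := Fin (k + 1) → Bool

/-- the letters of a list of bits -/
def bits (l : List Bool) : List Inp := l.map .bit

/-- the letters of a bit string -/
def lets (a : El k) : List Inp := bits (List.ofFn a)

def cA (l : List (El k)) : List Inp := l.flatMap fun a => .sA :: lets a

def cB (l : List (El k)) : List Inp := l.flatMap fun a => .sB :: lets a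

noncomputable def wa (X : Finset (El k)) : List Inp := cA X.toList

noncomputable def wb (Y : Finset (El k)) : List Inp := cB Y.toList ++ [.hash]

noncomputable def blk (x : Finset (El k) × Finset (El k)) : List Inp := wa x.1 ++ wb x.2

noncomputable def word (l : List (Finset (El k) × Finset (El k))) : List Inp := l.flatMap blk

/-- the unmarked copy -/
def unm (w : List Inp) : List Wk := w.map .inp

lemma unm_append (w w' : List Inp) : unm (w ++ w') = unm w ++ unm w' := by simp [unm]

/-! ### The checks on letters -/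

lemma run_app {x x' : Fin (k + 2) × St} {v v' : List Wk} (h : run x v = some x') :
    run x (v ++ v') = run x' v' := by
  rw [run_append, h]; rfl

/-- no comparison while the counter is positive -/
lemma run_pos (l : List Bool) (c : Fin (k + 2)) (s : St) (h : l.length ≤ c.val) :
    run (c, s) (unm (bits l)) = some (⟨c.val - l.length, by omega⟩, s) := by
  induction l generalizing c with
  | nil => rfl
  | cons b l ih =>
    simp only [List.length_cons] at h
    have hc : c.val ≠ 0 := by omega
    have e : unm (bits (b :: l)) = .inp (.bit b) :: unm (bits l) := rfl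
    have h1 : fstep (c, s) (.inp (.bit b)) = some (⟨c.val - 1, by omega⟩, s) := by
      simp [fstep, hc, dec]
    rw [e]
    simp only [run]
    rw [h1]
    simp only [Option.bind_some]
    rw [ih _ (by simp only; omega)]
    simp only [List.length_cons, Option.some.injEq, Prod.mk.injEq, Fin.mk.injEq, and_true]
    omega

/-- the letters of a string in the sweep for the bit `t` -/
lemma run_lets (t : Fin (k + 1)) (s : St) (a : El k) :
    run (t.castSucc, s) (unm (lets a)) = (act s (a t)).map fun s' => (t.succ, s') := by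
  have hsplit : List.ofFn a =
      (List.ofFn a).take t.val ++ a t :: (List.ofFn a).drop (t.val + 1) := by
    have h1 : t.val < (List.ofFn a).length := by rw [List.length_ofFn]; exact t.isLt
    have h2 : (List.ofFn a)[t.val]'h1 = a t := by rw [List.getElem_ofFn]
    conv_lhs => rw [← List.take_append_drop t.val (List.ofFn a)]
    rw [List.drop_eq_getElem_cons h1, h2]
  have hl1 : ((List.ofFn a).take t.val).length = t.val := by
    rw [List.length_take, List.length_ofFn]
    omega
  have hl2 : ((List.ofFn a).drop (t.val + 1)).length = k - t.val := by simp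
  have e : unm (lets a) = unm (bits ((List.ofFn a).take t.val)) ++
      (.inp (.bit (a t)) :: unm (bits ((List.ofFn a).drop (t.val + 1)))) := by
    rw [lets]
    conv_lhs => rw [hsplit]
    simp [bits, unm]
  rw [e, run_app (run_pos _ _ _ (by rw [hl1]; simp))]
  have h0 : (⟨t.castSucc.val - ((List.ofFn a).take t.val).length, by omega⟩ : Fin (k + 2)) = 0 := by
    apply Fin.ext
    simp only [hl1]
    simp
  rw [h0]
  simp only [run]
  cases h1 : act s (a t) with
  | none =>
    have h2 : fstep ((0 : Fin (k + 2)), s) (.inp (.bit (a t))) = none := by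
      simp [fstep, h1]
    rw [h2]
    rfl
  | some s' =>
    have h2 : fstep ((0 : Fin (k + 2)), s) (.inp (.bit (a t))) =
        some (Fin.last (k + 1), s') := by
      simp [fstep, h1, dec]
    rw [h2]
    simp only [Option.bind_some, Option.map_some]
    rw [run_pos _ _ _ (by rw [hl2]; simp; omega)]
    simp only [Option.some.injEq, Prod.mk.injEq, and_true]
    apply Fin.ext
    simp only [hl2, Fin.val_last, Fin.val_succ]
    omega

/-- a separator with the string behind it -/
lemma run_el (t : Fin (k + 1)) (s : St) (g : Wk) (hg : ∀ b, g ≠ .inp (.bit b))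
    (hh : g ≠ .inp .hash) (a : El k) (v : List Wk) :
    run (t.succ, s) (g :: (unm (lets a) ++ v)) =
      ((sep s g).bind fun s1 => act s1 (a t)).bind fun s2 => run (t.succ, s2) v := by
  have h1 : fstep (t.succ, s) g = (sep s g).map fun s1 => (t.castSucc, s1) := by
    have hd : dec t.succ = t.castSucc := by
      apply Fin.ext
      simp [dec]
    rw [← hd]
    cases g with
    | inp x =>
      cases x with
      | sA => rfl
      | sB => rfl
      | hash => exact absurd rfl hh
      | bit b => exact absurd rfl (hg b)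
    | mA => rfl
    | mB => rfl
  simp only [run]
  rw [h1]
  cases sep s g with
  | none => rfl
  | some s1 =>
    simp only [Option.map_some, Option.bind_some]
    rw [run_append, run_lets]
    cases act s1 (a t) with
    | none => rfl
    | some s2 => rfl

lemma run_hash (t : Fin (k + 1)) (s : St) (v : List Wk) :
    run (t.succ, s) (.inp .hash :: v) =
      (sep s (.inp .hash)).bind fun s1 => run (t.succ, s1) v := by
  simp only [run, fstep]
  cases sep s (.inp .hash) <;> rfl

/-- a check of the bit `t` -/
def rn (t : Fin (k + 1)) (s : St) (v : List Wk) : Option (Fin (k + 2) × St) := run (t.succ, s) v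

lemma rn_el (t : Fin (k + 1)) (s : St) (g : Wk) (hg : ∀ b, g ≠ .inp (.bit b))
    (hh : g ≠ .inp .hash) (a : El k) (v : List Wk) :
    rn t s (g :: (unm (lets a) ++ v)) =
      ((sep s g).bind fun s1 => act s1 (a t)).bind fun s2 => rn t s2 v :=
  run_el t s g hg hh a v

lemma rn_hash (t : Fin (k + 1)) (s : St) (v : List Wk) :
    rn t s (.inp .hash :: v) = (sep s (.inp .hash)).bind fun s1 => rn t s1 v :=
  run_hash t s v

lemma rn_nil (t : Fin (k + 1)) (s : St) : rn t s [] = some (t.succ, s) := rfl

lemma rn_app {t : Fin (k + 1)} {s s' : St} {v v' : List Wk}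
    (h : rn t s v = some (t.succ, s')) : rn t s (v ++ v') = rn t s' v' :=
  run_app h

lemma rn_app_none {t : Fin (k + 1)} {s : St} {v v' : List Wk}
    (h : rn t s v = none) : rn t s (v ++ v') = none := by
  unfold rn at h ⊢
  rw [run_append, h]
  rfl

/-- all checks succeed -/
def OK (k : ℕ) (v : List Wk) : Prop := ∀ t : Fin (k + 1), rn t .s0 v = some (t.succ, .s0)

/-! ### Unmarked parts -/

lemma cA_cons (a : El k) (l : List (El k)) (v : List Wk) :
    unm (cA (a :: l)) ++ v = .inp .sA :: (unm (lets a) ++ (unm (cA l) ++ v)) := by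
  simp [cA, unm]

lemma cB_cons (a : El k) (l : List (El k)) (v : List Wk) :
    unm (cB (a :: l)) ++ v = .inp .sB :: (unm (lets a) ++ (unm (cB l) ++ v)) := by
  simp [cB, unm]

lemma rnA_s0 (t : Fin (k + 1)) (l : List (El k)) (v : List Wk) :
    rn t .s0 (unm (cA l) ++ v) = rn t .s0 v := by
  induction l with
  | nil => rfl
  | cons a l ih =>
    rw [cA_cons, rn_el t _ _ (by simp) (by simp)]
    exact ih

lemma rnA_gotA (t : Fin (k + 1)) (b : Bool) (l : List (El k)) (v : List Wk) :
    rn t (.gotA b) (unm (cA l) ++ v) = rn t (.gotA b) v := by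
  induction l with
  | nil => rfl
  | cons a l ih =>
    rw [cA_cons, rn_el t _ _ (by simp) (by simp)]
    exact ih

lemma rnB_gotA (t : Fin (k + 1)) (b : Bool) (l : List (El k)) (v : List Wk) :
    rn t (.gotA b) (unm (cB l) ++ v) = rn t (.gotA b) v := by
  induction l with
  | nil => rfl
  | cons a l ih =>
    rw [cB_cons, rn_el t _ _ (by simp) (by simp)]
    exact ih

lemma rnB_gotB (t : Fin (k + 1)) (l : List (El k)) (v : List Wk) :
    rn t .gotB (unm (cB l) ++ v) = rn t .gotB v := by
  induction l with
  | nil => rfl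
  | cons a l ih =>
    rw [cB_cons, rn_el t _ _ (by simp) (by simp)]
    exact ih

/-! ### Good words are accepted -/

lemma mk_unm (w : List Inp) : List.Forall₂ mk1 w (unm w) := by
  induction w with
  | nil => exact List.Forall₂.nil
  | cons a w ih => exact List.Forall₂.cons (Or.inl rfl) ih

lemma good_blk {x : Finset (El k) × Finset (El k)} (h : (x.1 ∩ x.2).Nonempty) :
    ∃ v, List.Forall₂ mk1 (blk x) v ∧ OK k v := by
  obtain ⟨a, ha⟩ := h
  rw [Finset.mem_inter] at ha
  obtain ⟨l1, l2, h1⟩ := List.append_of_mem (Finset.mem_toList.2 ha.1)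
  obtain ⟨m1, m2, h2⟩ := List.append_of_mem (Finset.mem_toList.2 ha.2)
  refine ⟨unm (cA l1) ++ (.mA :: (unm (lets a) ++ (unm (cA l2) ++ (unm (cB m1) ++
    (.mB :: (unm (lets a) ++ (unm (cB m2) ++ [.inp .hash]))))))), ?_, ?_⟩
  · have e : blk x = cA l1 ++ (.sA :: (lets a ++ (cA l2 ++ (cB m1 ++
        (.sB :: (lets a ++ (cB m2 ++ [.hash]))))))) := by
      simp [blk, wa, wb, h1, h2, cA, cB]
    rw [e]
    refine List.rel_append (mk_unm _) (List.Forall₂.cons (Or.inr (Or.inl ⟨rfl, rfl⟩)) ?_)
    refine List.rel_append (mk_unm _) (List.rel_append (mk_unm _) (List.rel_append (mk_unm _) ?_))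
    refine List.Forall₂.cons (Or.inr (Or.inr ⟨rfl, rfl⟩)) ?_
    exact List.rel_append (mk_unm _) (List.rel_append (mk_unm _) (mk_unm _))
  · intro t
    rw [rnA_s0, rn_el t _ _ (by simp) (by simp)]
    simp only [sep, act, Option.bind_some]
    rw [rnA_gotA, rnB_gotA, rn_el t _ _ (by simp) (by simp)]
    simp only [sep, act, Option.bind_some, if_true]
    rw [rnB_gotB, rn_hash]
    rfl

lemma good_word {l : List (Finset (El k) × Finset (El k))}
    (h : ∀ x ∈ l, (x.1 ∩ x.2).Nonempty) : ∃ v, List.Forall₂ mk1 (word l) v ∧ OK k v := by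
  induction l with
  | nil => exact ⟨[], List.Forall₂.nil, fun _ => rfl⟩
  | cons x l ih =>
    obtain ⟨v1, h1, h2⟩ := good_blk (h x (by simp))
    obtain ⟨v2, h3, h4⟩ := ih fun y hy => h y (List.mem_cons_of_mem _ hy)
    refine ⟨v1 ++ v2, ?_, fun t => ?_⟩
    · have e : word (x :: l) = blk x ++ word l := by simp [word]
      rw [e]
      exact List.rel_append h1 h3
    · rw [rn_app (h2 t), h4 t]

lemma accV_of_ok {v : List Wk} (h : OK k v) : AccV k v := by
  have key : ∀ n : ℕ, ∀ hn : n < k + 1, Rch v (Fin.succ ⟨n, hn⟩ : Fin (k + 2)) := by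
    intro n
    induction n with
    | zero =>
      intro hn
      have e : (Fin.succ ⟨0, hn⟩ : Fin (k + 2)) = 1 := by
        apply Fin.ext
        simp
      rw [e]
      exact Rch.one
    | succ n ih =>
      intro hn
      exact Rch.next (ih (by omega)) (h ⟨n, by omega⟩) rfl
  exact ⟨Fin.succ ⟨k, by omega⟩, key k (by omega), h ⟨k, by omega⟩⟩

/-! ### Words with a bad block are rejected -/

lemma mk_split {w1 w2 : List Inp} {v : List Wk} (h : List.Forall₂ mk1 (w1 ++ w2) v) :
    ∃ v1 v2, v = v1 ++ v2 ∧ List.Forall₂ mk1 w1 v1 ∧ List.Forall₂ mk1 w2 v2 := by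
  induction w1 generalizing v with
  | nil => exact ⟨[], v, rfl, List.Forall₂.nil, h⟩
  | cons a w ih =>
    simp only [List.cons_append] at h
    cases h with
    | @cons _ g _ v' h1 h2 =>
      obtain ⟨v1, v2, rfl, h3, h4⟩ := ih h2
      exact ⟨g :: v1, v2, rfl, List.Forall₂.cons h1 h3, h4⟩

lemma mk_bits {l : List Bool} {v : List Wk}
    (h : List.Forall₂ mk1 (bits l) v) : v = unm (bits l) := by
  induction l generalizing v with
  | nil =>
    simp only [bits, List.map_nil, List.forall₂_nil_left_iff] at h
    rw [h]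
    rfl
  | cons x l ih =>
    simp only [bits, List.map_cons] at h
    cases h with
    | @cons _ g _ v' h1 h2 =>
      have h3 := ih h2
      rcases h1 with h1 | ⟨h1, -⟩ | ⟨h1, -⟩
      · rw [h3, h1]; rfl
      · exact absurd h1 (by simp)
      · exact absurd h1 (by simp)

lemma mk_el {c : Inp} {a : El k} {w : List Inp} {v : List Wk}
    (h : List.Forall₂ mk1 (c :: (lets a ++ w)) v) : ∃ g v', v = g :: (unm (lets a) ++ v') ∧
      mk1 c g ∧ List.Forall₂ mk1 w v' := by
  cases h with
  | @cons _ g _ v' h1 h2 =>
    obtain ⟨v1, v2, rfl, h3, h4⟩ := mk_split h2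
    exact ⟨g, v2, by rw [mk_bits h3]; rfl, h1, h4⟩

lemma markA' {l : List (El k)} {v : List Wk} (h : List.Forall₂ mk1 (cA l) v) :
    (∀ (t : Fin (k + 1)) b, rn t (.gotA b) v = some (t.succ, .gotA b)) ∨
      ∀ (t : Fin (k + 1)) b, rn t (.gotA b) v = none := by
  induction l generalizing v with
  | nil =>
    simp only [cA, List.flatMap_nil, List.forall₂_nil_left_iff] at h
    subst h
    exact Or.inl fun _ _ => rfl
  | cons a l ih =>
    have e : cA (a :: l) = .sA :: (lets a ++ cA l) := by simp [cA]
    rw [e] at h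
    obtain ⟨g, v', rfl, h1, h4⟩ := mk_el h
    rcases h1 with rfl | ⟨-, rfl⟩ | ⟨h1, -⟩
    · have key : ∀ (t : Fin (k + 1)) b, rn t (.gotA b) (.inp .sA :: (unm (lets a) ++ v')) =
          rn t (.gotA b) v' := fun t b => by
        rw [rn_el t _ _ (by simp) (by simp)]; rfl
      rcases ih h4 with h6 | h6
      · exact Or.inl fun t b => by rw [key, h6]
      · exact Or.inr fun t b => by rw [key, h6]
    · right
      intro t b
      rw [rn_el t _ _ (by simp) (by simp)]
      rfl
    · exact absurd h1 (by simp)

lemma markA {l : List (El k)} {v : List Wk} (h : List.Forall₂ mk1 (cA l) v) :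
    (∀ t : Fin (k + 1), rn t .s0 v = some (t.succ, .s0)) ∨
      (∃ a ∈ l, ∀ t : Fin (k + 1), rn t .s0 v = some (t.succ, .gotA (a t))) ∨
      ∀ t : Fin (k + 1), rn t .s0 v = none := by
  induction l generalizing v with
  | nil =>
    simp only [cA, List.flatMap_nil, List.forall₂_nil_left_iff] at h
    subst h
    exact Or.inl fun _ => rfl
  | cons a l ih =>
    have e : cA (a :: l) = .sA :: (lets a ++ cA l) := by simp [cA]
    rw [e] at h
    obtain ⟨g, v', rfl, h1, h4⟩ := mk_el h
    rcases h1 with rfl | ⟨-, rfl⟩ | ⟨h1, -⟩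
    · have key : ∀ t : Fin (k + 1), rn t .s0 (.inp .sA :: (unm (lets a) ++ v')) =
          rn t .s0 v' := fun t => by
        rw [rn_el t _ _ (by simp) (by simp)]; rfl
      rcases ih h4 with h6 | ⟨c, hc, h6⟩ | h6
      · exact Or.inl fun t => by rw [key, h6]
      · exact Or.inr (Or.inl ⟨c, List.mem_cons_of_mem _ hc, fun t => by rw [key, h6]⟩)
      · exact Or.inr (Or.inr fun t => by rw [key, h6])
    · have key : ∀ t : Fin (k + 1), rn t .s0 (.mA :: (unm (lets a) ++ v')) =
          rn t (.gotA (a t)) v' := fun t => by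
        rw [rn_el t _ _ (by simp) (by simp)]; rfl
      rcases markA' h4 with h6 | h6
      · exact Or.inr (Or.inl ⟨a, by simp, fun t => by rw [key, h6]⟩)
      · exact Or.inr (Or.inr fun t => by rw [key, h6])
    · exact absurd h1 (by simp)

lemma markB0 {l : List (El k)} {v : List Wk} (h : List.Forall₂ mk1 (cB l) v)
    (t : Fin (k + 1)) : rn t .s0 v = some (t.succ, .s0) ∨ rn t .s0 v = none := by
  induction l generalizing v with
  | nil =>
    simp only [cB, List.flatMap_nil, List.forall₂_nil_left_iff] at h
    subst h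
    exact Or.inl rfl
  | cons a l ih =>
    have e : cB (a :: l) = .sB :: (lets a ++ cB l) := by simp [cB]
    rw [e] at h
    obtain ⟨g, v', rfl, h1, h4⟩ := mk_el h
    rcases h1 with rfl | ⟨h1, -⟩ | ⟨-, rfl⟩
    · rw [rn_el t _ _ (by simp) (by simp)]
      exact ih h4
    · exact absurd h1 (by simp)
    · right
      rw [rn_el t _ _ (by simp) (by simp)]
      rfl

lemma markB2 {l : List (El k)} {v : List Wk} (h : List.Forall₂ mk1 (cB l) v) :
    (∀ t : Fin (k + 1), rn t .gotB v = some (t.succ, .gotB)) ∨
      ∀ t : Fin (k + 1), rn t .gotB v = none := by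
  induction l generalizing v with
  | nil =>
    simp only [cB, List.flatMap_nil, List.forall₂_nil_left_iff] at h
    subst h
    exact Or.inl fun _ => rfl
  | cons a l ih =>
    have e : cB (a :: l) = .sB :: (lets a ++ cB l) := by simp [cB]
    rw [e] at h
    obtain ⟨g, v', rfl, h1, h4⟩ := mk_el h
    rcases h1 with rfl | ⟨h1, -⟩ | ⟨-, rfl⟩
    · have key : ∀ t : Fin (k + 1), rn t .gotB (.inp .sB :: (unm (lets a) ++ v')) =
          rn t .gotB v' := fun t => by
        rw [rn_el t _ _ (by simp) (by simp)]; rfl
      rcases ih h4 with h6 | h6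
      · exact Or.inl fun t => by rw [key, h6]
      · exact Or.inr fun t => by rw [key, h6]
    · exact absurd h1 (by simp)
    · right
      intro t
      rw [rn_el t _ _ (by simp) (by simp)]
      rfl

lemma markB1 {l : List (El k)} {v : List Wk} (h : List.Forall₂ mk1 (cB l) v) :
    (∀ (t : Fin (k + 1)) b, rn t (.gotA b) v = some (t.succ, .gotA b)) ∨
      (∃ a ∈ l, ∀ (t : Fin (k + 1)) b,
        rn t (.gotA b) v = if a t = b then some (t.succ, .gotB) else none) ∨
      ∀ (t : Fin (k + 1)) b, rn t (.gotA b) v = none := by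
  induction l generalizing v with
  | nil =>
    simp only [cB, List.flatMap_nil, List.forall₂_nil_left_iff] at h
    subst h
    exact Or.inl fun _ _ => rfl
  | cons a l ih =>
    have e : cB (a :: l) = .sB :: (lets a ++ cB l) := by simp [cB]
    rw [e] at h
    obtain ⟨g, v', rfl, h1, h4⟩ := mk_el h
    rcases h1 with rfl | ⟨h1, -⟩ | ⟨-, rfl⟩
    · have key : ∀ (t : Fin (k + 1)) b, rn t (.gotA b) (.inp .sB :: (unm (lets a) ++ v')) =
          rn t (.gotA b) v' := fun t b => by
        rw [rn_el t _ _ (by simp) (by simp)]; rfl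
      rcases ih h4 with h6 | ⟨c, hc, h6⟩ | h6
      · exact Or.inl fun t b => by rw [key, h6]
      · exact Or.inr (Or.inl ⟨c, List.mem_cons_of_mem _ hc, fun t b => by rw [key, h6]⟩)
      · exact Or.inr (Or.inr fun t b => by rw [key, h6])
    · exact absurd h1 (by simp)
    · have key : ∀ (t : Fin (k + 1)) b, rn t (.gotA b) (.mB :: (unm (lets a) ++ v')) =
          if a t = b then rn t .gotB v' else none := fun t b => by
        rw [rn_el t _ _ (by simp) (by simp)]
        simp only [sep, act, Option.bind_some]
        by_cases hc : a t = b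
        · rw [if_pos hc, if_pos hc]; rfl
        · rw [if_neg hc, if_neg hc]; rfl
      rcases markB2 h4 with h6 | h6
      · exact Or.inr (Or.inl ⟨a, by simp, fun t b => by rw [key, h6]⟩)
      · exact Or.inr (Or.inr fun t b => by rw [key, h6]; simp)

lemma bad_blk {x : Finset (El k) × Finset (El k)} {v : List Wk}
    (h : List.Forall₂ mk1 (blk x) v) : ((x.1 ∩ x.2).Nonempty ∧ OK k v) ∨
      ∀ t : Fin (k + 1), (rn t .s0 v = none ∨ rn t .s0 v = some (t.succ, .s0)) ∧
        ∃ t' : Fin (k + 1), rn t' .s0 v = none := by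
  have e : blk x = cA x.1.toList ++ (cB x.2.toList ++ [.hash]) := by simp [blk, wa, wb]
  rw [e] at h
  obtain ⟨v1, v', rfl, h1, h2⟩ := mk_split h
  obtain ⟨v2, v3, rfl, h3, h4⟩ := mk_split h2
  have hv3 : v3 = [.inp .hash] := by
    cases h4 with
    | @cons _ g _ v' h5 h6 =>
      simp only [List.forall₂_nil_left_iff] at h6
      subst h6
      rcases h5 with rfl | ⟨h5, -⟩ | ⟨h5, -⟩
      · rfl
      · exact absurd h5 (by simp)
      · exact absurd h5 (by simp)
  subst hv3
  have all : (∀ t : Fin (k + 1), rn t .s0 (v1 ++ (v2 ++ [.inp .hash])) = none) →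
      ∀ t : Fin (k + 1), (rn t .s0 (v1 ++ (v2 ++ [.inp .hash])) = none ∨
        rn t .s0 (v1 ++ (v2 ++ [.inp .hash])) = some (t.succ, .s0)) ∧
        ∃ t' : Fin (k + 1), rn t' .s0 (v1 ++ (v2 ++ [.inp .hash])) = none :=
    fun h t => ⟨Or.inl (h t), t, h t⟩
  rcases markA h1 with h5 | ⟨a, ha, h5⟩ | h5
  · refine Or.inr (all fun t => ?_)
    rw [rn_app (h5 t)]
    rcases markB0 h3 t with h6 | h6
    · rw [rn_app h6, rn_hash]; rfl
    · exact rn_app_none h6
  · rcases markB1 h3 with h6 | ⟨b, hb, h6⟩ | h6
    · refine Or.inr (all fun t => ?_)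
      rw [rn_app (h5 t), rn_app (h6 t _), rn_hash]
      rfl
    · have hval : ∀ t : Fin (k + 1), rn t .s0 (v1 ++ (v2 ++ [.inp .hash])) =
          if b t = a t then some (t.succ, .s0) else none := by
        intro t
        rw [rn_app (h5 t)]
        by_cases hc : b t = a t
        · have h7 := h6 t (a t)
          rw [if_pos hc] at h7
          rw [rn_app h7, rn_hash, if_pos hc]
          rfl
        · have h7 := h6 t (a t)
          rw [if_neg hc] at h7
          rw [rn_app_none h7, if_neg hc]
      by_cases hab : b = a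
      · left
        refine ⟨⟨a, ?_⟩, fun t => ?_⟩
        · rw [Finset.mem_inter]
          refine ⟨Finset.mem_toList.1 ha, ?_⟩
          rw [← hab]
          exact Finset.mem_toList.1 hb
        · rw [hval, if_pos (congrFun hab t)]
      · right
        obtain ⟨t', ht'⟩ := Function.ne_iff.1 hab
        intro t
        refine ⟨?_, t', by rw [hval, if_neg ht']⟩
        rw [hval]
        by_cases hc : b t = a t
        · rw [if_pos hc]; exact Or.inr rfl
        · rw [if_neg hc]; exact Or.inl rfl
    · refine Or.inr (all fun t => ?_)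
      rw [rn_app (h5 t), rn_app_none (h6 t _)]
  · refine Or.inr (all fun t => ?_)
    exact rn_app_none (h5 t)

/-- the counter returns to its value on well-formed words -/
lemma counter {l : List (Finset (El k) × Finset (El k))} {v : List Wk}
    (h : List.Forall₂ mk1 (word l) v) (t : Fin (k + 1)) :
    rn t .s0 v = none ∨ rn t .s0 v = some (t.succ, .s0) := by
  induction l generalizing v with
  | nil =>
    simp only [word, List.flatMap_nil, List.forall₂_nil_left_iff] at h
    subst h
    exact Or.inr rfl
  | cons x l ih =>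
    have e : word (x :: l) = blk x ++ word l := by simp [word]
    rw [e] at h
    obtain ⟨v1, v2, rfl, h1, h2⟩ := mk_split h
    rcases bad_blk h1 with ⟨-, h3⟩ | h3
    · rw [rn_app (h3 t)]
      exact ih h2
    · rcases (h3 t).1 with h4 | h4
      · exact Or.inl (rn_app_none h4)
      · rw [rn_app h4]
        exact ih h2

lemma bad_word {l : List (Finset (El k) × Finset (El k))} {v : List Wk}
    (h : List.Forall₂ mk1 (word l) v) (hv : OK k v) : ∀ x ∈ l, (x.1 ∩ x.2).Nonempty := by
  induction l generalizing v with
  | nil => intro x hx; simp at hx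
  | cons x l ih =>
    have e : word (x :: l) = blk x ++ word l := by simp [word]
    rw [e] at h
    obtain ⟨v1, v2, rfl, h1, h2⟩ := mk_split h
    rcases bad_blk h1 with ⟨h3, h4⟩ | h3
    · intro y hy
      rcases List.mem_cons.1 hy with rfl | hy
      · exact h3
      · refine ih h2 (fun t => ?_) y hy
        have h5 := hv t
        rw [rn_app (h4 t)] at h5
        exact h5
    · exfalso
      obtain ⟨t', ht'⟩ := (h3 0).2
      have h5 := hv t'
      rw [rn_app_none ht'] at h5
      simp at h5

lemma ok_of_accV {l : List (Finset (El k) × Finset (El k))} {v : List Wk}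
    (h : List.Forall₂ mk1 (word l) v) (hv : AccV k v) : OK k v := by
  have key : ∀ c : Fin (k + 2), Rch v c → c ≠ 0 ∧
      ∀ t : Fin (k + 1), t.succ < c → rn t .s0 v = some (t.succ, .s0) := by
    intro c hc
    induction hc with
    | one =>
      refine ⟨by simp, fun t ht => ?_⟩
      exfalso
      rw [Fin.lt_def] at ht
      simp at ht
    | @next c c' c'' _ h2 h3 ih =>
      obtain ⟨hc0, hc1⟩ := ih
      obtain ⟨t, rfl⟩ := Fin.exists_succ_eq.2 hc0
      have h2' : rn t .s0 v = some (c', .s0) := h2
      have hcc : c' = t.succ := by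
        rcases counter h t with h4 | h4
        · rw [h4] at h2'; simp at h2'
        · rw [h4] at h2'
          simp only [Option.some.injEq, Prod.mk.injEq, and_true] at h2'
          exact h2'.symm
      subst hcc
      refine ⟨?_, fun t' ht' => ?_⟩
      · intro h0
        rw [h0] at h3
        simp at h3
      · rcases lt_or_eq_of_le (show t'.succ ≤ t.succ by
          rw [Fin.lt_def] at ht'
          rw [Fin.le_def]
          omega) with h4 | h4
        · exact hc1 _ h4
        · have : t' = t := Fin.succ_injective _ h4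
          rw [this]
          exact h2'
  obtain ⟨c, hc, hr⟩ := hv
  obtain ⟨hc0, hc1⟩ := key c hc
  obtain ⟨t, rfl⟩ := Fin.exists_succ_eq.2 hc0
  have hr' : rn t .s0 v = some (Fin.last (k + 1), .s0) := hr
  have hcc : Fin.last (k + 1) = t.succ := by
    rcases counter h t with h4 | h4
    · rw [h4] at hr'; simp at hr'
    · rw [h4] at hr'
      simp only [Option.some.injEq, Prod.mk.injEq, and_true] at hr'
      exact hr'.symm
  rw [hcc] at hr'
  intro t'
  rcases lt_or_eq_of_le (show t'.succ ≤ t.succ by rw [← hcc]; exact Fin.le_last _) with h4 | h4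
  · exact hc1 _ h4
  · have : t' = t := Fin.succ_injective _ h4
    rw [this]
    exact hr'

/-- the machine accepts a sequence of blocks iff all blocks are good -/
theorem word_mem_iff (l : List (Finset (El k) × Finset (El k))) :
    word l ∈ (MM k).lang ↔ ∀ x ∈ l, (x.1 ∩ x.2).Nonempty := by
  constructor
  · intro h
    obtain ⟨v, h1, h2⟩ := sound h
    exact bad_word h1 (ok_of_accV h1 h2)
  · intro h
    obtain ⟨v, h1, h2⟩ := good_word h
    exact complete h1 (accV_of_ok h2)

end Pool.Agent.Q230.LAS.V2
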