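import Mathlib

/-!
# 1-limited automata

The tape is `⊢ w ⊣`. A cell is an end-marker, an input cell not yet visited (`new`), or a visited
(frozen) cell (`old`). A configuration is `(q, L, R)`: state, the cells to the left of the head
(nearest first), the scanned cell followed by the cells to its right; `R = []` means that the head has
moved to the right past `⊣`.
-/

set_option autoImplicit false

namespace Pool.Agent.Q230.LAS

/-- directions of head moves -/
inductive Dir
  | left
  | right
  deriving DecidableEq

/-- what the machine sees: an end-marker or a symbol of the work alphabet -/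
inductive Sym (G : Type)
  | lend
  | rend
  | sym (g : G)

/-- tape cells -/
inductive Cell (A G : Type)
  | lend
  | rend
  | new (a : A)
  | old (g : G)

/-- A 1-limited automaton with input alphabet `A`, states `Q` and work alphabet `G` (without the two
end-markers); `emb` is the inclusion of the input alphabet in the work alphabet. -/
structure LA (A Q G : Type) where
  emb : A ↪ G
  δ : Q → Sym G → Set (Q × G × Dir)
  start : Q
  fin : Set Q

variable {A Q G : Type}

/-- the symbol read in a cell -/
def Cell.read (M : LA A Q G) : Cell A G → Sym G
  | .lend => .lend
  | .rend => .rend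
  | .new a => .sym (M.emb a)
  | .old g => .sym g

/-- writing: only a cell visited for the first time changes -/
def Cell.write : Cell A G → G → Cell A G
  | .new _, g => .old g
  | c, _ => c

/-- configurations -/
abbrev Conf (A Q G : Type) := Q × List (Cell A G) × List (Cell A G)

/-- one move in the given direction -/
inductive Step (M : LA A Q G) : Dir → Conf A Q G → Conf A Q G → Prop
  | right {q q' : Q} {g : G} {L R : List (Cell A G)} {c : Cell A G} :
      (q', g, Dir.right) ∈ M.δ q (c.read M) → Step M .right (q, L, c :: R) (q', c.write g :: L, R)
  | left {q q' : Q} {g : G} {L R : List (Cell A G)} {l c : Cell A G} :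
      (q', g, Dir.left) ∈ M.δ q (c.read M) →
      Step M .left (q, l :: L, c :: R) (q', L, l :: c.write g :: R)

/-- computations -/
def Reach (M : LA A Q G) : Conf A Q G → Conf A Q G → Prop :=
  Relation.ReflTransGen fun C C' => ∃ d, Step M d C C'

/-- the initial configuration: the head scans cell 1 of `⊢ w ⊣` -/
def init (M : LA A Q G) (w : List A) : Conf A Q G :=
  (M.start, [.lend], w.map .new ++ [.rend])

/-- the accepted language: some computation moves past `⊣` in a final state -/
def LA.lang (M : LA A Q G) : Set (List A) :=
  {w | ∃ q ∈ M.fin, ∃ L, Reach M (init M w) (q, L, [])}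

/-- determinism: at most one move for each state and scanned symbol -/
def LA.Deterministic (M : LA A Q G) : Prop := ∀ q s, (M.δ q s).Subsingleton

/-- the head scans a cell of the input (not an end-marker) -/
def OnInput (C : Conf A Q G) : Prop :=
  ∃ c R, C.2.2 = c :: R ∧ c ≠ .lend ∧ c ≠ .rend

/-- Sweeping: in all computations on all inputs the head starts to the right, and changes its
direction only at the end-markers. -/
def LA.Sweeping (M : LA A Q G) : Prop :=
  ∀ w : List A, (∀ d C, Step M d (init M w) C → OnInput (init M w) → d = .right) ∧
    ∀ C C' C'' d d', Reach M (init M w) C → Step M d C C' → Step M d' C' C'' → OnInput C' → d' = d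

/-- `AccP M d C l`: there is an accepting computation from the configuration `C`, which has been
entered by a move in direction `d`, and `l` is the list of the positions of the input cells at which the
head reverses its direction in this computation (the head scans the cell `C.2.1.length`; reversals at
the end-markers are not counted). -/
inductive AccP (M : LA A Q G) : Dir → Conf A Q G → List ℕ → Prop
  | done {d : Dir} {q : Q} {L : List (Cell A G)} : q ∈ M.fin → AccP M d (q, L, []) []
  | keep {d d' : Dir} {C C' : Conf A Q G} {l : List ℕ} : Step M d' C C' →
      (d' = d ∨ ¬ OnInput C) → AccP M d' C' l → AccP M d C l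
  | rev {d d' : Dir} {C C' : Conf A Q G} {l : List ℕ} : Step M d' C C' → d' ≠ d → OnInput C →
      AccP M d' C' l → AccP M d C (C.2.1.length :: l)

/-- `w` has an accepting computation with `r` reversals at input cells -/
def LA.AcceptsWith (M : LA A Q G) (w : List A) (r : ℕ) : Prop :=
  ∃ l : List ℕ, AccP M .right (init M w) l ∧ l.length = r

/-- Few reversals: on accepted words of length `m` the head reverses its direction at input cells only
`o(m)` times. -/
def LA.FewReversals (M : LA A Q G) : Prop :=
  ∃ ρ : ℕ → ℕ, Filter.Tendsto (fun m => (ρ m : ℝ) / m) Filter.atTop (nhds 0) ∧
    ∀ w ∈ M.lang, ∃ r ≤ ρ w.length, M.AcceptsWith w r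

end Pool.Agent.Q230.LAS
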