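import Pool.Agent.Q230.LAS.Alg

/-!
# Behaviours of words: traversals without reversals
-/

set_option autoImplicit false

namespace Pool.Agent.Q230.LAS

open Relation

variable {A Q G : Type}

section
variable (M : LA A Q G)

open Classical in
/-- the move to the right -/
noncomputable def rst (q : Q) (s : Sym G) : Option (Q × G) :=
  if h : ∃ x : Q × G, (x.1, x.2, Dir.right) ∈ M.δ q s then some h.choose else none

open Classical in
/-- the move to the left -/
noncomputable def lst (q : Q) (s : Sym G) : Option Q :=
  if h : ∃ x : Q, ∃ g : G, (x, g, Dir.left) ∈ M.δ q s then some h.choose else none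

/-- the first sweep -/
noncomputable def out : Q → List A → Option (Q × List G)
  | q, [] => some (q, [])
  | q, a :: w => (rst M q (.sym (M.emb a))).bind fun x =>
      (out x.1 w).map fun y => (y.1, x.2 :: y.2)

/-- sweeps to the right -/
noncomputable def al : Q → List G → Option Q
  | q, [] => some q
  | q, g :: v => (rst M q (.sym g)).bind fun x => al x.1 v

/-- sweeps to the left -/
noncomputable def be : Q → List G → Option Q
  | q, [] => some q
  | q, g :: v => (be q v).bind fun q' => lst M q' (.sym g)

/-- the behaviour of a word -/
noncomputable def beh (w : List A) : Beh (Option Q) where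
  τ p := p.bind fun q => (out M q w).map Prod.fst
  α p x := p.bind fun q => (out M q w).bind fun y => x.bind fun q' => al M q' y.2
  β p x := p.bind fun q => (out M q w).bind fun y => x.bind fun q' => be M q' y.2

variable {M}

lemma rst_eq (hd : M.Deterministic) {q q' : Q} {g : G} {s : Sym G} :
    (q', g, Dir.right) ∈ M.δ q s ↔ rst M q s = some (q', g) := by
  unfold rst
  constructor
  · intro h
    have hex : ∃ x : Q × G, (x.1, x.2, Dir.right) ∈ M.δ q s := ⟨(q', g), h⟩
    rw [dif_pos hex]
    have h2 := hd q s hex.choose_spec h
    simp only [Prod.mk.injEq] at h2
    rw [Option.some.injEq]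
    exact Prod.ext h2.1 h2.2.1
  · intro h
    split_ifs at h with hex
    have h2 := hex.choose_spec
    simp only [Option.some.injEq] at h
    rw [h] at h2
    exact h2

lemma lst_eq (hd : M.Deterministic) {q q' : Q} {g : G} {s : Sym G}
    (h : (q', g, Dir.left) ∈ M.δ q s) : lst M q s = some q' := by
  unfold lst
  have hex : ∃ x : Q, ∃ g : G, (x, g, Dir.left) ∈ M.δ q s := ⟨q', g, h⟩
  rw [dif_pos hex]
  obtain ⟨g', h1⟩ := hex.choose_spec
  have h2 := hd q s h1 h
  simp only [Prod.mk.injEq] at h2
  rw [h2.1]

lemma lst_ex {q q' : Q} {s : Sym G} (h : lst M q s = some q') :
    ∃ g, (q', g, Dir.left) ∈ M.δ q s := by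
  unfold lst at h
  split_ifs at h with hex
  have h2 := hex.choose_spec
  simp only [Option.some.injEq] at h
  rw [h] at h2
  exact h2

lemma out_append (q : Q) (w1 w2 : List A) : out M q (w1 ++ w2) =
    (out M q w1).bind fun y => (out M y.1 w2).map fun z => (z.1, y.2 ++ z.2) := by
  induction w1 generalizing q with
  | nil =>
    simp only [List.nil_append, out, Option.bind_some]
    cases out M q w2 <;> rfl
  | cons a w ih =>
    simp only [List.cons_append, out]
    cases h : rst M q (.sym (M.emb a)) with
    | none => rfl
    | some x =>
      simp only [Option.bind_some]
      rw [ih]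
      cases h2 : out M x.1 w with
      | none => rfl
      | some y =>
        simp only [Option.bind_some, Option.map_some]
        cases out M y.1 w2 <;> rfl

lemma al_append (q : Q) (v1 v2 : List G) : al M q (v1 ++ v2) =
    (al M q v1).bind fun q' => al M q' v2 := by
  induction v1 generalizing q with
  | nil => rfl
  | cons g v ih =>
    simp only [List.cons_append, al]
    cases h : rst M q (.sym g) with
    | none => rfl
    | some x =>
      simp only [Option.bind_some]
      rw [ih]

lemma be_append (q : Q) (v1 v2 : List G) : be M q (v1 ++ v2) =
    (be M q v2).bind fun q' => be M q' v1 := by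
  induction v1 with
  | nil =>
    simp only [List.nil_append, be]
    cases be M q v2 <;> rfl
  | cons g v ih =>
    simp only [List.cons_append, be]
    rw [ih]
    cases be M q v2 <;> rfl

lemma beh_append (w1 w2 : List A) : beh M (w1 ++ w2) = beh M w1 * beh M w2 := by
  refine Beh.ext ?_ ?_ ?_
  · funext p
    rw [mul_τ]
    simp only [beh]
    cases p with
    | none => rfl
    | some q =>
      simp only [Option.bind_some]
      rw [out_append]
      cases h : out M q w1 with
      | none => rfl
      | some y =>
        simp only [Option.bind_some, Option.map_some]
        cases out M y.1 w2 <;> rfl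
  · funext p x
    rw [mul_α]
    simp only [beh]
    cases p with
    | none => rfl
    | some q =>
      simp only [Option.bind_some]
      rw [out_append]
      cases h : out M q w1 with
      | none => rfl
      | some y =>
        simp only [Option.bind_some, Option.map_some]
        cases out M y.1 w2 with
        | none => rfl
        | some z =>
          simp only [Option.bind_some, Option.map_some]
          cases x with
          | none => rfl
          | some q' =>
            simp only [Option.bind_some]
            rw [al_append]
  · funext p x
    rw [mul_β]
    simp only [beh]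
    cases p with
    | none => rfl
    | some q =>
      simp only [Option.bind_some]
      rw [out_append]
      cases h : out M q w1 with
      | none => rfl
      | some y =>
        simp only [Option.bind_some, Option.map_some]
        cases out M y.1 w2 with
        | none => rfl
        | some z =>
          simp only [Option.bind_some, Option.map_some]
          cases x with
          | none => rfl
          | some q' =>
            simp only [Option.bind_some]
            rw [be_append]

/-- entering from the right -/
def ent (q : Q) (L R : List (Cell A G)) : Conf A Q G :=
  match L with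
  | [] => (q, [], R)
  | l :: L' => (q, L', l :: R)

/-! ### Behaviours give computations -/

lemma reach_step {d : Dir} {C C' : Conf A Q G} (h : Step M d C C') : Reach M C C' :=
  ReflTransGen.single ⟨d, h⟩

lemma reach_al (hd : M.Deterministic) {q q' : Q} {v : List G} {L R : List (Cell A G)}
    (h : al M q v = some q') :
    Reach M (q, L, v.map .old ++ R) (q', (v.map .old).reverse ++ L, R) := by
  induction v generalizing q L with
  | nil =>
    simp only [al, Option.some.injEq] at h
    subst h
    exact ReflTransGen.refl
  | cons g v ih =>
    simp only [al] at h
    cases hx : rst M q (.sym g) with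
    | none => rw [hx] at h; simp at h
    | some x =>
      rw [hx] at h
      simp only [Option.bind_some] at h
      have h1 : (x.1, x.2, Dir.right) ∈ M.δ q (.sym g) := (rst_eq hd).2 hx
      have h2 : Step M .right (q, L, Cell.old g :: (v.map .old ++ R))
          (x.1, (Cell.old g : Cell A G).write x.2 :: L, v.map .old ++ R) := Step.right h1
      refine (reach_step h2).trans ?_
      have h3 := ih (L := (Cell.old g : Cell A G).write x.2 :: L) h
      simpa [Cell.write, Reach] using h3

lemma reach_out (hd : M.Deterministic) {q q' : Q} {w : List A} {v : List G}
    {L R : List (Cell A G)} (h : out M q w = some (q', v)) :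
    Reach M (q, L, w.map .new ++ R) (q', (v.map .old).reverse ++ L, R) := by
  induction w generalizing q L v with
  | nil =>
    simp only [out, Option.some.injEq, Prod.mk.injEq] at h
    obtain ⟨rfl, rfl⟩ := h
    exact ReflTransGen.refl
  | cons a w ih =>
    simp only [out] at h
    cases hx : rst M q (.sym (M.emb a)) with
    | none => rw [hx] at h; simp at h
    | some x =>
      rw [hx] at h
      simp only [Option.bind_some] at h
      cases hy : out M x.1 w with
      | none => rw [hy] at h; simp at h
      | some y =>
        rw [hy] at h
        simp only [Option.map_some, Option.some.injEq, Prod.mk.injEq] at h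
        obtain ⟨h5, h6⟩ := h
        subst h6
        subst h5
        have h1 : (x.1, x.2, Dir.right) ∈ M.δ q (.sym (M.emb a)) := (rst_eq hd).2 hx
        have h2 : Step M .right (q, L, Cell.new a :: (w.map .new ++ R))
            (x.1, (Cell.new a : Cell A G).write x.2 :: L, w.map .new ++ R) := Step.right h1
        refine (reach_step h2).trans ?_
        have h3 := ih (L := (Cell.new a : Cell A G).write x.2 :: L) hy
        simpa [Cell.write, Reach] using h3

lemma reach_be {q q' : Q} {v : List G} {L R : List (Cell A G)} (hL : L ≠ [])
    (h : be M q v = some q') :
    Reach M (ent q ((v.map .old).reverse ++ L) R) (ent q' L (v.map .old ++ R)) := by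
  induction v using List.reverseRecOn generalizing q R with
  | nil =>
    simp only [be, Option.some.injEq] at h
    subst h
    exact ReflTransGen.refl
  | append_singleton v g ih =>
    rw [be_append] at h
    simp only [be, Option.bind_some] at h
    cases hx : lst M q (.sym g) with
    | none => rw [hx] at h; simp at h
    | some q1 =>
      rw [hx] at h
      simp only [Option.bind_some] at h
      obtain ⟨γ, h1⟩ := lst_ex hx
      have h3 := ih (R := Cell.old g :: R) h
      have e1 : ent q (((v ++ [g]).map .old).reverse ++ L) R =
          ((q, (v.map .old).reverse ++ L, Cell.old g :: R) : Conf A Q G) := by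
        simp [ent]
      have e2 : (((v ++ [g]).map .old) ++ R : List (Cell A G)) =
          v.map .old ++ (Cell.old g :: R) := by simp
      rw [e1, e2]
      refine ReflTransGen.trans ?_ h3
      cases hL' : (v.map Cell.old).reverse ++ L with
      | nil =>
        exfalso
        rw [List.append_eq_nil_iff] at hL'
        exact hL hL'.2
      | cons l L' =>
        have h2 : Step M .left (q, l :: L', Cell.old g :: R)
            (q1, L', l :: (Cell.old g : Cell A G).write γ :: R) := Step.left h1
        exact reach_step h2

lemma out_length {q q' : Q} {w : List A} {v : List G} (h : out M q w = some (q', v)) :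
    v.length = w.length := by
  induction w generalizing q v with
  | nil =>
    simp only [out, Option.some.injEq, Prod.mk.injEq] at h
    rw [← h.2]
    rfl
  | cons a w ih =>
    simp only [out] at h
    cases hx : rst M q (.sym (M.emb a)) with
    | none => rw [hx] at h; simp at h
    | some x =>
      rw [hx] at h
      simp only [Option.bind_some] at h
      cases hy : out M x.1 w with
      | none => rw [hy] at h; simp at h
      | some y =>
        rw [hy] at h
        simp only [Option.map_some, Option.some.injEq, Prod.mk.injEq] at h
        obtain ⟨h5, h6⟩ := h
        subst h6
        subst h5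
        simp [ih hy]

variable (M) in
/-- words of visited cells with the same behaviour -/
def Eqv (v v' : List G) : Prop := (∀ q, al M q v = al M q v') ∧ ∀ q, be M q v = be M q v'

lemma beh_eqv {y y' : List A} (hb : beh M y = beh M y') {p q : Q} {v : List G}
    (h : out M p y = some (q, v)) : ∃ v', out M p y' = some (q, v') ∧ Eqv M v v' := by
  have h1 := congrFun (congrArg Beh.τ hb) (some p)
  simp only [beh, Option.bind_some, h, Option.map_some] at h1
  cases h2 : out M p y' with
  | none => rw [h2] at h1; simp at h1
  | some z =>
    obtain ⟨q', v'⟩ := z
    rw [h2] at h1
    simp only [Option.map_some, Option.some.injEq] at h1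
    subst h1
    refine ⟨v', rfl, fun x => ?_, fun x => ?_⟩
    · have h3 := congrFun (congrFun (congrArg Beh.α hb) (some p)) (some x)
      simpa only [beh, Option.bind_some, h, h2] using h3
    · have h3 := congrFun (congrFun (congrArg Beh.β hb) (some p)) (some x)
      simpa only [beh, Option.bind_some, h, h2] using h3

end

end Pool.Agent.Q230.LAS
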