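import Pool.Agent.Q230.LAS.Eq

/-!
# Replacing a factor in which the head does not reverse
-/

set_option autoImplicit false

namespace Pool.Agent.Q230.LAS

open Relation

variable {A Q G : Type}

/-- the contents of the region on the two tapes -/
def Cpt (M : LA A Q G) (y y' : List A) (Y Y' : List (Cell A G)) : Prop :=
  (Y = y.map .new ∧ Y' = y'.map .new) ∨
    ∃ v v', Eqv M v v' ∧ v.length = y.length ∧ Y = v.map .old ∧ Y' = v'.map .old

/-- the simulation: the second machine waits while the first one is in the region -/
inductive Sim (M : LA A Q G) (a : ℕ) (y y' : List A) : Dir → Conf A Q G → Conf A Q G → Prop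
  | ol {d : Dir} {q : Q} {L R1 Y Y' R2 : List (Cell A G)} : R1 ≠ [] → Cpt M y y' Y Y' →
      L.length + R1.length = a → Sim M a y y' d (q, L, R1 ++ (Y ++ R2)) (q, L, R1 ++ (Y' ++ R2))
  | or {d : Dir} {q : Q} {L1 L2 R : List (Cell A G)} {v v' : List G} : Eqv M v v' →
      v.length = y.length → L2.length = a →
      Sim M a y y' d (q, L1 ++ ((v.map .old).reverse ++ L2), R)
        (q, L1 ++ ((v'.map .old).reverse ++ L2), R)
  | mn {p q : Q} {y1 y2 : List A} {c : A} {v1 : List G} {L R2 : List (Cell A G)} :
      y = y1 ++ c :: y2 → out M p y1 = some (q, v1) → L.length = a →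
      Sim M a y y' .right (q, (v1.map .old).reverse ++ L, (c :: y2).map .new ++ R2)
        (p, L, y'.map .new ++ R2)
  | mo {p q : Q} {v v' v1 v2 : List G} {g : G} {L R2 : List (Cell A G)} : Eqv M v v' →
      v = v1 ++ g :: v2 → al M p v1 = some q → L.length = a → v.length = y.length →
      Sim M a y y' .right (q, (v1.map .old).reverse ++ L, (g :: v2).map .old ++ R2)
        (p, L, v'.map .old ++ R2)
  | ml {p q : Q} {v v' v1 v2 : List G} {g : G} {L R : List (Cell A G)} : Eqv M v v' →
      v = v1 ++ g :: v2 → be M p v2 = some q → L.length = a → v.length = y.length →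
      Sim M a y y' .left (q, (v1.map .old).reverse ++ L, .old g :: (v2.map .old ++ R))
        (ent p ((v'.map .old).reverse ++ L) R)

variable {M : LA A Q G} {a : ℕ} {y y' : List A}

lemma no_step {d : Dir} {q : Q} {L : List (Cell A G)} {C : Conf A Q G} :
    ¬ Step M d (q, L, []) C := by
  intro h
  cases h

/-- one step of the simulation -/
lemma sim_step (hd : M.Deterministic) (ha : 1 ≤ a) (hy : y ≠ []) (hb : beh M y = beh M y')
    {d d' : Dir} {C C1 C' : Conf A Q G} (hs : Sim M a y y' d C C') (h : Step M d' C C1)
    (hdir : a ≤ C.2.1.length → C.2.1.length < a + y.length → d' = d) :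
    ∃ C1', Reach M C' C1' ∧ Sim M a y y' d' C1 C1' := by
  cases hs with
  | @ol _ q L R1 Y Y' R2 hR hY hlen =>
    cases R1 with
    | nil => exact absurd rfl hR
    | cons c R1 =>
      simp only [List.cons_append] at h ⊢
      cases h with
      | @right _ q1 g _ _ _ hδ =>
        have h1 : Step M .right (q, L, c :: (R1 ++ (Y' ++ R2)))
            (q1, c.write g :: L, R1 ++ (Y' ++ R2)) := Step.right hδ
        cases R1 with
        | cons c' R1 =>
          exact ⟨_, reach_step h1, Sim.ol (by simp) hY (by simp at hlen ⊢; omega)⟩
        | nil =>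
          refine ⟨_, reach_step h1, ?_⟩
          simp only [List.nil_append]
          rcases hY with ⟨rfl, rfl⟩ | ⟨v, v', hv, hvl, rfl, rfl⟩
          · cases y with
            | nil => exact absurd rfl hy
            | cons b y =>
              exact Sim.mn (y1 := []) (v1 := []) (p := q1) (q := q1)
                (L := c.write g :: L) rfl rfl (by simp at hlen ⊢; omega)
          · cases v with
            | nil =>
              exfalso
              apply hy
              simpa using hvl.symm
            | cons b v =>
              exact Sim.mo (v1 := []) (p := q1) (q := q1) (L := c.write g :: L) hv rfl rfl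
                (by simp at hlen ⊢; omega) hvl
      | @left _ q1 g L1 _ l _ hδ =>
        have h1 : Step M .left (q, l :: L1, c :: (R1 ++ (Y' ++ R2)))
            (q1, L1, l :: c.write g :: (R1 ++ (Y' ++ R2))) := Step.left hδ
        refine ⟨_, reach_step h1, ?_⟩
        exact Sim.ol (R1 := l :: c.write g :: R1) (by simp) hY (by simp at hlen ⊢; omega)
  | @or _ q L1 L2 R v v' hv hvl hlen =>
    cases R with
    | nil => exact absurd h no_step
    | cons c R =>
      cases d' with
      | right =>
        have key : ∃ q1 g, (q1, g, Dir.right) ∈ M.δ q (c.read M) ∧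
            C1 = (q1, c.write g :: (L1 ++ ((v.map .old).reverse ++ L2)), R) := by
          generalize L1 ++ ((v.map .old).reverse ++ L2) = X at h ⊢
          cases h with
          | @right _ q1 g _ _ _ hδ => exact ⟨q1, g, hδ, rfl⟩
        obtain ⟨q1, g, hδ, rfl⟩ := key
        have h1 : Step M .right (q, L1 ++ ((v'.map .old).reverse ++ L2), c :: R)
            (q1, c.write g :: (L1 ++ ((v'.map .old).reverse ++ L2)), R) := Step.right hδ
        refine ⟨_, reach_step h1, ?_⟩
        exact Sim.or (L1 := c.write g :: L1) hv hvl hlen
      | left =>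
        cases L1 with
        | cons l L1 =>
          simp only [List.cons_append] at h ⊢
          cases h with
          | @left _ q1 g _ _ _ _ hδ =>
            have h1 : Step M .left (q, l :: (L1 ++ ((v'.map .old).reverse ++ L2)), c :: R)
                (q1, L1 ++ ((v'.map .old).reverse ++ L2), l :: c.write g :: R) := Step.left hδ
            exact ⟨_, reach_step h1, Sim.or hv hvl hlen⟩
        | nil =>
          simp only [List.nil_append] at h ⊢
          have hL2 : L2 ≠ [] := by
            rintro rfl
            simp at hlen
            omega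
          have key : ∃ q1 g, (q1, g, Dir.left) ∈ M.δ q (c.read M) ∧
              C1 = ent q1 ((v.map .old).reverse ++ L2) (c.write g :: R) := by
            generalize (v.map .old).reverse ++ L2 = L at h
            cases h with
            | @left _ q1 g L' _ l _ h3 => exact ⟨q1, g, h3, rfl⟩
          obtain ⟨q1, g, hδ, rfl⟩ := key
          have h1 : Reach M (q, (v'.map .old).reverse ++ L2, c :: R)
              (ent q1 ((v'.map .old).reverse ++ L2) (c.write g :: R)) := by
            cases hL : (v'.map Cell.old).reverse ++ L2 with
            | nil =>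
              exfalso
              rw [List.append_eq_nil_iff] at hL
              exact hL2 hL.2
            | cons l L' => exact reach_step (Step.left hδ)
          refine ⟨_, h1, ?_⟩
          obtain ⟨v1, b, rfl⟩ : ∃ v1 b, v = v1 ++ [b] := by
            rcases List.eq_nil_or_concat v with h2 | ⟨v1, b, h2⟩
            · exfalso
              subst h2
              apply hy
              simpa using hvl.symm
            · exact ⟨v1, b, by simpa using h2⟩
          have e1 : ent q1 (((v1 ++ [b]).map .old).reverse ++ L2) (c.write g :: R) =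
              ((q1, (v1.map .old).reverse ++ L2,
                .old b :: (([] : List G).map .old ++ c.write g :: R)) : Conf A Q G) := by
            simp [ent]
          rw [e1]
          exact Sim.ml (v2 := []) (p := q1) (q := q1) hv rfl rfl hlen hvl
  | @mn p q y1 y2 c v1 L R2 hy1 ho hlen =>
    have hvl := out_length ho
    have hdr : d' = .right := by
      refine hdir ?_ ?_
      · simp; omega
      · rw [hy1]; simp; omega
    subst hdr
    simp only [List.map_cons, List.cons_append] at h
    cases h with
    | @right _ q1 g _ _ _ hδ =>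
      have h4 : rst M q (.sym (M.emb c)) = some (q1, g) := (rst_eq hd).1 hδ
      have ho2 : out M p (y1 ++ [c]) = some (q1, v1 ++ [g]) := by
        rw [out_append, ho]
        simp only [Option.bind_some, out]
        rw [h4]
        rfl
      cases y2 with
      | cons b y2 =>
        refine ⟨_, ReflTransGen.refl, ?_⟩
        have e1 : ((Cell.new c : Cell A G).write g :: ((v1.map .old).reverse ++ L)) =
            ((v1 ++ [g]).map .old).reverse ++ L := by simp [Cell.write]
        rw [e1]
        exact Sim.mn (y1 := y1 ++ [c]) (by simp [hy1]) ho2 hlen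
      | nil =>
        rw [← hy1] at ho2
        obtain ⟨v', hv1, hv2⟩ := beh_eqv hb ho2
        refine ⟨_, reach_out hd hv1, ?_⟩
        have e1 : ((Cell.new c : Cell A G).write g :: ((v1.map .old).reverse ++ L)) =
            [] ++ (((v1 ++ [g]).map .old).reverse ++ L) := by simp [Cell.write]
        rw [e1]
        have h5 := out_length ho2
        have h6 := Sim.or (M := M) (a := a) (y := y) (y' := y') (d := Dir.right) (q := q1)
          (L1 := []) (R := R2) hv2 h5 hlen
        simpa using h6
  | @mo p q v v' v1 v2 g L R2 hv hvv ha1 hlen hvl =>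
    have hdr : d' = .right := by
      refine hdir ?_ ?_
      · simp; omega
      · rw [← hvl, hvv]; simp; omega
    subst hdr
    simp only [List.map_cons, List.cons_append] at h
    cases h with
    | @right _ q1 γ _ _ _ hδ =>
      have h4 : rst M q (.sym g) = some (q1, γ) := (rst_eq hd).1 hδ
      have ho2 : al M p (v1 ++ [g]) = some q1 := by
        rw [al_append, ha1]
        simp only [Option.bind_some, al]
        rw [h4]
        rfl
      cases v2 with
      | cons b v2 =>
        refine ⟨_, ReflTransGen.refl, ?_⟩
        have e1 : ((Cell.old g : Cell A G).write γ :: ((v1.map .old).reverse ++ L)) =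
            ((v1 ++ [g]).map .old).reverse ++ L := by simp [Cell.write]
        rw [e1]
        exact Sim.mo (v1 := v1 ++ [g]) hv (by simp [hvv]) ho2 hlen hvl
      | nil =>
        rw [← hvv, hv.1] at ho2
        refine ⟨_, reach_al hd ho2, ?_⟩
        have e1 : ((Cell.old g : Cell A G).write γ :: ((v1.map .old).reverse ++ L)) =
            [] ++ (((v1 ++ [g]).map .old).reverse ++ L) := by simp [Cell.write]
        rw [e1, ← hvv]
        have h6 := Sim.or (M := M) (a := a) (y := y) (y' := y') (d := Dir.right) (q := q1)
          (L1 := []) (R := R2) hv hvl hlen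
        simpa using h6
  | @ml p q v v' v1 v2 g L R hv hvv hbe hlen hvl =>
    have hdr : d' = .left := by
      refine hdir ?_ ?_
      · simp; omega
      · rw [← hvl, hvv]; simp; omega
    subst hdr
    have hL : L ≠ [] := by
      rintro rfl
      simp at hlen
      omega
    have key : ∃ q1, lst M q (.sym g) = some q1 ∧
        C1 = ent q1 ((v1.map .old).reverse ++ L) (Cell.old g :: (v2.map .old ++ R)) := by
      generalize (v1.map .old).reverse ++ L = L0 at h
      cases h with
      | @left _ q1 γ L' _ l _ h3 => exact ⟨q1, lst_eq hd h3, rfl⟩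
    obtain ⟨q1, k1, rfl⟩ := key
    have hbe2 : be M p (g :: v2) = some q1 := by
      simp only [be]
      rw [hbe]
      exact k1
    rcases List.eq_nil_or_concat v1 with h2 | ⟨v0, b, h2⟩
    · subst h2
      simp only [List.nil_append] at hvv
      subst hvv
      rw [hv.2] at hbe2
      refine ⟨_, reach_be hL hbe2, ?_⟩
      cases L with
      | nil => exact absurd rfl hL
      | cons l L =>
        have h6 := Sim.ol (M := M) (a := a) (y := y) (y' := y') (d := Dir.left) (q := q1)
          (L := L) (R1 := [l]) (R2 := R) (by simp) (Or.inr ⟨g :: v2, v', hv, hvl, rfl, rfl⟩)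
          (by simpa using hlen)
        simpa [ent] using h6
    · have h2' : v1 = v0 ++ [b] := by simpa using h2
      subst h2'
      refine ⟨_, ReflTransGen.refl, ?_⟩
      have e1 : ent q1 (((v0 ++ [b]).map .old).reverse ++ L) (Cell.old g :: (v2.map .old ++ R)) =
          ((q1, (v0.map .old).reverse ++ L,
            .old b :: ((g :: v2).map .old ++ R)) : Conf A Q G) := by
        simp [ent]
      rw [e1]
      exact Sim.ml (v1 := v0) (v2 := g :: v2) hv (by simp [hvv]) hbe2 hlen hvl

lemma sim_onInput {d : Dir} {C C' : Conf A Q G} (hs : Sim M a y y' d C C')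
    (h1 : a ≤ C.2.1.length) (h2 : C.2.1.length < a + y.length) : OnInput C := by
  cases hs with
  | @ol _ q L R1 Y Y' R2 hR hY hlen =>
    exfalso
    have : 0 < R1.length := List.length_pos_iff.2 hR
    simp only at h1
    omega
  | @or _ q L1 L2 R v v' hv hvl hlen =>
    exfalso
    simp at h2
    omega
  | mn => exact ⟨_, _, rfl, by simp, by simp⟩
  | mo => exact ⟨_, _, rfl, by simp, by simp⟩
  | ml => exact ⟨_, _, rfl, by simp, by simp⟩

lemma sim_acc (hd : M.Deterministic) (ha : 1 ≤ a) (hy : y ≠ []) (hb : beh M y = beh M y')
    {d : Dir} {C : Conf A Q G} {l : List ℕ} (h : AccP M d C l)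
    (hl : ∀ p ∈ l, ¬ (a ≤ p ∧ p < a + y.length)) :
    ∀ C', Sim M a y y' d C C' → ∃ q ∈ M.fin, ∃ L, Reach M C' (q, L, []) := by
  induction h with
  | @done d q L hq =>
    intro C' hs
    generalize hC : ((q, L, []) : Conf A Q G) = C at hs
    cases hs with
    | @ol _ q' L' R1 Y Y' R2 hR hY hlen =>
      exfalso
      simp only [Prod.mk.injEq] at hC
      have h2 := hC.2.2.symm
      rw [List.append_eq_nil_iff] at h2
      exact hR h2.1
    | @or _ q' L1 L2 R v v' hv hvl hlen =>
      simp only [Prod.mk.injEq] at hC
      obtain ⟨rfl, -, rfl⟩ := hC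
      exact ⟨q, hq, _, ReflTransGen.refl⟩
    | mn => simp at hC
    | mo => simp at hC
    | ml => simp at hC
  | @keep d d' C C1 l h1 h2 _ ih =>
    intro C' hs
    obtain ⟨C1', h3, h4⟩ := sim_step hd ha hy hb hs h1 (fun e1 e2 => by
      rcases h2 with h2 | h2
      · exact h2
      · exact absurd (sim_onInput hs e1 e2) h2)
    obtain ⟨q, hq, L, h5⟩ := ih hl _ h4
    exact ⟨q, hq, L, h3.trans h5⟩
  | @rev d d' C C1 l h1 h2 h3 _ ih =>
    intro C' hs
    obtain ⟨C1', h4, h5⟩ := sim_step hd ha hy hb hs h1 (fun e1 e2 =>
      absurd ⟨e1, e2⟩ (hl _ (by simp)))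
    obtain ⟨q, hq, L, h6⟩ := ih (fun p hp => hl p (List.mem_cons_of_mem _ hp)) _ h5
    exact ⟨q, hq, L, h4.trans h6⟩

/-- A factor in which the head does not reverse can be replaced by a word of the same behaviour. -/
theorem swap (hd : M.Deterministic) {u v : List A} (hy : y ≠ []) (hb : beh M y = beh M y')
    {l : List ℕ} (h : AccP M .right (init M (u ++ (y ++ v))) l)
    (hl : ∀ p ∈ l, ¬ (u.length + 1 ≤ p ∧ p < u.length + 1 + y.length)) :
    u ++ (y' ++ v) ∈ M.lang := by
  refine sim_acc hd (a := u.length + 1) (by omega) hy hb h hl (init M (u ++ (y' ++ v))) ?_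
  cases u with
  | nil =>
    cases y with
    | nil => exact absurd rfl hy
    | cons c y =>
      have h1 := Sim.mn (M := M) (a := 1) (y := c :: y) (y' := y') (y1 := []) (y2 := y) (c := c)
        (v1 := []) (p := M.start) (q := M.start) (L := [Cell.lend])
        (R2 := v.map .new ++ [.rend]) rfl rfl rfl
      simpa [init] using h1
  | cons c u =>
    have h1 := Sim.ol (M := M) (a := (c :: u).length + 1) (y := y) (y' := y') (d := Dir.right)
      (q := M.start) (L := [Cell.lend]) (R1 := (c :: u).map .new)
      (R2 := v.map .new ++ [.rend]) (by simp) (Or.inl ⟨rfl, rfl⟩) (by simp; omega)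
    simpa [init] using h1

end Pool.Agent.Q230.LAS
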