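import Pool.Agent.Q230.LAS.Blk2
import Pool.Agent.Q230.LAS.Rev

/-!
# The lower bound for deterministic machines with few reversals
-/

set_option autoImplicit false

namespace Pool.Agent.Q230.LAS.V2

open Filter Topology

variable {k : ℕ}

/-- repetition -/
def rp {α : Type} (n : ℕ) (l : List α) : List α := (List.replicate n l).flatten

lemma rp_zero {α : Type} (l : List α) : rp 0 l = [] := rfl

lemma rp_succ {α : Type} (n : ℕ) (l : List α) : rp (n + 1) l = l ++ rp n l := by
  simp [rp, List.replicate_succ]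

lemma rp_add {α : Type} (m n : ℕ) (l : List α) : rp (m + n) l = rp m l ++ rp n l := by
  induction m with
  | zero => simp [rp_zero]
  | succ m ih =>
    have e : m + 1 + n = (m + n) + 1 := by ring
    rw [e, rp_succ, rp_succ, ih, List.append_assoc]

lemma mem_rp {α : Type} {n : ℕ} {l : List α} {x : α} (h : x ∈ rp n l) : x ∈ l := by
  induction n with
  | zero => simp [rp_zero] at h
  | succ n ih =>
    rw [rp_succ, List.mem_append] at h
    exact h.elim id ih

abbrev Bl (k : ℕ) := Finset (El k) × Finset (El k)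

lemma word_append (l l' : List (Bl k)) : word (l ++ l') = word l ++ word l' := by
  simp [word]

lemma word_cons (x : Bl k) (l : List (Bl k)) : word (x :: l) = blk x ++ word l := by
  simp [word]

lemma length_word_rp (n : ℕ) (l : List (Bl k)) :
    (word (rp n l)).length = n * (word l).length := by
  induction n with
  | zero => simp [rp_zero, word]
  | succ n ih =>
    rw [rp_succ, word_append, List.length_append, ih]
    ring

lemma word_ne {l : List (Bl k)} (hl : l ≠ []) : word l ≠ [] := by
  cases l with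
  | nil => exact absurd rfl hl
  | cons x l =>
    rw [word_cons]
    simp [blk, wb]

section
variable {Q G : Type} {M : LA Inp Q G}

lemma beh_rp (l : List (Bl k)) (n : ℕ) :
    beh M (word (rp (n + 1) l)) = beh M (word l) ^ (n + 1) := by
  induction n with
  | zero =>
    rw [rp_succ, rp_zero, List.append_nil, pow_one]
  | succ n ih =>
    rw [rp_succ, word_append, beh_append, ih, ← pow_succ']

lemma pigeon {N m : ℕ} (hm : 1 ≤ m) (l : List ℕ) (hl : l.length < N) :
    ∃ i < N, ∀ p ∈ l, ¬ (i * m + 1 ≤ p ∧ p < i * m + 1 + m) := by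
  classical
  have h1 : ((l.map fun p => (p - 1) / m).toFinset).card < (Finset.range N).card := by
    rw [Finset.card_range]
    refine lt_of_le_of_lt (List.toFinset_card_le _) ?_
    simpa using hl
  obtain ⟨i, hi, hni⟩ := Finset.exists_mem_notMem_of_card_lt_card h1
  rw [Finset.mem_range] at hi
  refine ⟨i, hi, fun p hp hpp => hni ?_⟩
  rw [List.mem_toFinset, List.mem_map]
  refine ⟨p, hp, ?_⟩
  obtain ⟨h2, h3⟩ := hpp
  rw [Nat.div_eq_iff (by omega)]
  constructor <;> omega

lemma exists_N {ρ : ℕ → ℕ} (hρ : Tendsto (fun m => (ρ m : ℝ) / m) atTop (𝓝 0)) {m : ℕ}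
    (hm : 1 ≤ m) : ∃ N, ρ (N * m) < N := by
  have hm0 : (0 : ℝ) < m := by exact_mod_cast hm
  have h1 := (tendsto_order.1 hρ).2 (1 / m) (by positivity)
  obtain ⟨n0, hn0⟩ := eventually_atTop.1 h1
  refine ⟨n0 + 1, ?_⟩
  have h2 : n0 ≤ (n0 + 1) * m := by nlinarith
  have h3 := hn0 _ h2
  have h4 : (0 : ℝ) < (((n0 + 1) * m : ℕ) : ℝ) := by
    have : 0 < (n0 + 1) * m := by positivity
    exact_mod_cast this
  rw [div_lt_div_iff₀ h4 hm0, one_mul] at h3
  push_cast at h3
  have h5 : (ρ ((n0 + 1) * m) : ℝ) < (n0 : ℝ) + 1 := by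
    by_contra h
    rw [not_lt] at h
    nlinarith
  exact_mod_cast h5

/-- the heart of the lower bound -/
lemma no_power (hd : M.Deterministic) (hf : M.FewReversals) (hM : M.lang = (MM k).lang)
    {l : List (Bl k)} (hl : l ≠ []) (hgood : ∀ x ∈ l, (x.1 ∩ x.2).Nonempty)
    {X Y : Finset (El k)} (hXY : X ∩ Y = ∅) (n : ℕ) :
    (beh M (word l) * (beh M (wa X) * beh M (wb Y)) * beh M (word l)) ^ (n + 1) ≠
      beh M (word l) := by
  intro heq
  set l' : List (Bl k) := rp (n + 1) (l ++ (X, Y) :: l) with hl'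
  have hb : beh M (word l) = beh M (word l') := by
    rw [hl', beh_rp, word_append, word_cons, beh_append, beh_append, ← mul_assoc]
    have e : beh M (blk (X, Y)) = beh M (wa X) * beh M (wb Y) := by
      rw [← beh_append]
      rfl
    rw [e, heq]
  have hy : word l ≠ [] := word_ne hl
  have hm : 1 ≤ (word l).length := List.length_pos_iff.2 hy
  obtain ⟨ρ, hρ, hacc⟩ := hf
  obtain ⟨N, hN⟩ := exists_N hρ hm
  have hmem : word (rp N l) ∈ M.lang := by
    rw [hM, word_mem_iff]
    exact fun x hx => hgood x (mem_rp hx)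
  obtain ⟨r, hr, ls, hls, hlen⟩ := hacc _ hmem
  rw [length_word_rp] at hr
  obtain ⟨i, hi, hp⟩ := pigeon hm ls (by omega : ls.length < N)
  obtain ⟨j, rfl⟩ : ∃ j, N = i + (1 + j) := ⟨N - i - 1, by omega⟩
  have e1 : word (rp (i + (1 + j)) l) = word (rp i l) ++ (word l ++ word (rp j l)) := by
    rw [rp_add, rp_add, word_append, word_append]
    have : rp 1 l = l := by rw [rp_succ, rp_zero, List.append_nil]
    rw [this]
  rw [e1] at hls
  have h1 := swap hd hy hb hls (by
    rw [length_word_rp]
    exact hp)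
  rw [hM, ← word_append, ← word_append, word_mem_iff] at h1
  have h2 := h1 (X, Y) (by
    rw [List.mem_append, List.mem_append]
    right; left
    rw [hl', rp_succ, List.mem_append]
    left
    simp)
  simp only at h2
  rw [hXY] at h2
  simp at h2

/-- **Lower bound.** -/
theorem lower [Finite Q] (hd : M.Deterministic) (hf : M.FewReversals)
    (hM : M.lang = (MM k).lang) : 2 ^ (2 ^ (k + 1)) ≤ 3 * (Nat.card Q + 1) ^ 7 := by
  classical
  haveI : Fintype Q := Fintype.ofFinite Q
  let V : Set (Beh (Option Q)) :=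
    {m | ∃ l : List (Bl k), l ≠ [] ∧ (∀ x ∈ l, (x.1 ∩ x.2).Nonempty) ∧ m = beh M (word l)}
  have h1 := count (E := El k) (P := Option Q) V
    ⟨_, [(Finset.univ, Finset.univ)], by simp, by simp, rfl⟩ ?_ (fun X => beh M (wa X))
    (fun Y => beh M (wb Y)) ?_ ?_
  · have e1 : Fintype.card (El k) = 2 ^ (k + 1) := by simp [El]
    have e2 : Fintype.card (Option Q) = Nat.card Q + 1 := by
      rw [Fintype.card_option, Nat.card_eq_fintype_card]
    rw [e1, e2] at h1
    exact h1
  · rintro _ ⟨l1, h1, h2, rfl⟩ _ ⟨l2, _, h4, rfl⟩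
    refine ⟨l1 ++ l2, by simp [h1], ?_, ?_⟩
    · intro x hx
      rcases List.mem_append.1 hx with h | h
      · exact h2 x h
      · exact h4 x h
    · rw [word_append, beh_append]
  · intro X Y hXY
    refine ⟨[(X, Y)], by simp, by simpa using hXY, ?_⟩
    rw [← beh_append]
    congr 1
    simp [word, blk]
  · rintro _ ⟨l, h1, h2, rfl⟩ X Y hXY n hn
    obtain ⟨n', rfl⟩ : ∃ n', n = n' + 1 := ⟨n - 1, by omega⟩
    exact no_power hd hf hM h1 h2 hXY n'

end

end Pool.Agent.Q230.LAS.V2
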