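import Pool.Agent.Q230.LAS.Def

/-!
# A small nondeterministic sweeping machine

Bit strings of length `k + 1` are written with one letter for each position and bit. The machine marks
separators nondeterministically in the first sweep; in `k + 1` further sweeps to the right it checks
that in each block exactly one separator of each kind is marked and that the two strings behind the
marked separators are equal.
-/

set_option autoImplicit false

namespace Pool.Agent.Q230.LAS

open Relation

/-- the input alphabet -/
inductive Inp (k : ℕ)
  | sA
  | sB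
  | hash
  | bit (t : Fin (k + 1)) (b : Bool)
  deriving DecidableEq

/-- the work alphabet: the input alphabet and two marked separators -/
inductive Wk (k : ℕ)
  | inp (a : Inp k)
  | mA
  | mB
  deriving DecidableEq

/-- states of a check -/
inductive St
  | s0
  | actA
  | gotA (b : Bool)
  | actB (b : Bool)
  | gotB
  deriving DecidableEq

/-- the states -/
inductive Qs (k : ℕ)
  | guess
  | ret (t : Fin (k + 1))
  | chk (t : Fin (k + 1)) (s : St)
  | acc
  deriving DecidableEq

variable {k : ℕ}

/-- one step of the check of position `t` -/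
def fstep (t : Fin (k + 1)) : St → Wk k → Option St
  | .actA, .inp (.bit t' b) => if t' = t then some (.gotA b) else some .actA
  | .actB c, .inp (.bit t' b) => if t' = t then (if b = c then some .gotB else none) else some (.actB c)
  | s, .inp (.bit _ _) => some s
  | .s0, .inp .sA => some .s0
  | .gotA b, .inp .sA => some (.gotA b)
  | .s0, .mA => some .actA
  | .s0, .inp .sB => some .s0
  | .gotA b, .inp .sB => some (.gotA b)
  | .gotB, .inp .sB => some .gotB
  | .gotA b, .mB => some (.actB b)
  | .gotB, .inp .hash => some .s0
  | _, _ => none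

/-- the moves -/
inductive Del (k : ℕ) : Qs k → Sym (Wk k) → Qs k × Wk k × Dir → Prop
  | copy (g : Wk k) : Del k .guess (.sym g) (.guess, g, .right)
  | markA : Del k .guess (.sym (.inp .sA)) (.guess, .mA, .right)
  | markB : Del k .guess (.sym (.inp .sB)) (.guess, .mB, .right)
  | gend : Del k .guess .rend (.ret 0, .mA, .left)
  | rgo (t : Fin (k + 1)) (g : Wk k) : Del k (.ret t) (.sym g) (.ret t, g, .left)
  | rend (t : Fin (k + 1)) : Del k (.ret t) .lend (.chk t .s0, .mA, .right)
  | cgo (t : Fin (k + 1)) (s : St) (g : Wk k) (s' : St) (h : fstep t s g = some s') :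
      Del k (.chk t s) (.sym g) (.chk t s', g, .right)
  | cnext (t t' : Fin (k + 1)) (h : t'.val = t.val + 1) :
      Del k (.chk t .s0) .rend (.ret t', .mA, .left)
  | cacc : Del k (.chk (Fin.last k) .s0) .rend (.acc, .mA, .right)

/-- the machine -/
def MM (k : ℕ) : LA (Inp k) (Qs k) (Wk k) where
  emb := ⟨.inp, fun _ _ h => by injection h⟩
  δ q s := {x | Del k q s x}
  start := .guess
  fin := {.acc}

/-- the check as a function of words -/
def run (t : Fin (k + 1)) : St → List (Wk k) → Option St
  | s, [] => some s
  | s, g :: v => (fstep t s g).bind fun s' => run t s' v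

lemma run_append (t : Fin (k + 1)) (s : St) (v1 v2 : List (Wk k)) :
    run t s (v1 ++ v2) = (run t s v1).bind fun s' => run t s' v2 := by
  induction v1 generalizing s with
  | nil => rfl
  | cons g v ih =>
    simp only [List.cons_append, run]
    cases fstep t s g with
    | none => rfl
    | some x =>
      simp only [Option.bind_some]
      rw [ih]

/-- markings -/
def mk1 (a : Inp k) (g : Wk k) : Prop :=
  g = .inp a ∨ (a = .sA ∧ g = .mA) ∨ (a = .sB ∧ g = .mB)

/-- all checks succeed -/
def OK (v : List (Wk k)) : Prop := ∀ t, run t .s0 v = some .s0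

/-! ### Completeness -/

lemma rs {d : Dir} {C C' : Conf (Inp k) (Qs k) (Wk k)} (h : Step (MM k) d C C') :
    Reach (MM k) C C' :=
  ReflTransGen.single ⟨d, h⟩

lemma c_guess {w : List (Inp k)} {v : List (Wk k)} (h : List.Forall₂ mk1 w v)
    (L R : List (Cell (Inp k) (Wk k))) :
    Reach (MM k) (.guess, L, w.map .new ++ R) (.guess, (v.map .old).reverse ++ L, R) := by
  induction h generalizing L with
  | nil => exact ReflTransGen.refl
  | @cons a g w v h1 _ ih =>
    have h2 : Step (MM k) .right (.guess, L, Cell.new a :: (w.map .new ++ R))
        (.guess, (Cell.new a : Cell (Inp k) (Wk k)).write g :: L, w.map .new ++ R) := by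
      refine Step.right ?_
      rcases h1 with rfl | ⟨rfl, rfl⟩ | ⟨rfl, rfl⟩
      · exact Del.copy _
      · exact Del.markA
      · exact Del.markB
    refine (rs h2).trans ?_
    have h3 := ih ((Cell.new a : Cell (Inp k) (Wk k)).write g :: L)
    simpa [Cell.write, Reach] using h3

lemma c_chk {t : Fin (k + 1)} {v : List (Wk k)} {s s' : St} (h : run t s v = some s')
    (L R : List (Cell (Inp k) (Wk k))) :
    Reach (MM k) (.chk t s, L, v.map .old ++ R) (.chk t s', (v.map .old).reverse ++ L, R) := by
  induction v generalizing s L with
  | nil =>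
    simp only [run, Option.some.injEq] at h
    subst h
    exact ReflTransGen.refl
  | cons g v ih =>
    simp only [run] at h
    cases hx : fstep t s g with
    | none => rw [hx] at h; simp at h
    | some x =>
      rw [hx] at h
      simp only [Option.bind_some] at h
      have h2 : Step (MM k) .right (.chk t s, L, Cell.old g :: (v.map .old ++ R))
          (.chk t x, (Cell.old g : Cell (Inp k) (Wk k)).write g :: L, v.map .old ++ R) :=
        Step.right (Del.cgo t s g x hx)
      refine (rs h2).trans ?_
      have h3 := ih h ((Cell.old g : Cell (Inp k) (Wk k)).write g :: L)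
      simpa [Cell.write, Reach] using h3

lemma c_ret (t : Fin (k + 1)) (v : List (Wk k)) (c : Wk k) (R : List (Cell (Inp k) (Wk k))) :
    Reach (MM k) (.ret t, (v.map .old).reverse ++ [.lend], .old c :: R)
      (.ret t, [], .lend :: (v.map .old ++ .old c :: R)) := by
  induction v using List.reverseRecOn generalizing c R with
  | nil => exact rs (Step.left (c := .old c) (Del.rgo t c))
  | append_singleton v g ih =>
    have h1 := ih g (.old c :: R)
    have h2 : Step (MM k) .left
        (.ret t, .old g :: ((v.map .old).reverse ++ [.lend]), Cell.old c :: R)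
        (.ret t, (v.map .old).reverse ++ [.lend],
          .old g :: (Cell.old c : Cell (Inp k) (Wk k)).write c :: R) :=
      Step.left (Del.rgo t c)
    have h3 := (rs h2).trans h1
    simpa [Reach] using h3

lemma c_ret' (t : Fin (k + 1)) (q : Qs k) (v : List (Wk k)) (g : Wk k)
    (hq : Del k q .rend (.ret t, g, .left)) :
    Reach (MM k) (q, (v.map .old).reverse ++ [.lend], [.rend])
      (.ret t, [], .lend :: (v.map .old ++ [.rend])) := by
  induction v using List.reverseRecOn with
  | nil => exact rs (Step.left (c := .rend) hq)
  | append_singleton v c _ =>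
    have h1 := c_ret t v c [.rend]
    have h2 : Step (MM k) .left
        (q, .old c :: ((v.map .old).reverse ++ [.lend]), [.rend])
        (.ret t, (v.map .old).reverse ++ [.lend],
          .old c :: (Cell.rend : Cell (Inp k) (Wk k)).write g :: []) :=
      Step.left hq
    have h3 := (rs h2).trans h1
    simpa [Reach] using h3

lemma c_all {w : List (Inp k)} {v : List (Wk k)} (h : List.Forall₂ mk1 w v) (hv : OK v)
    (n : ℕ) (hn : n < k + 1) :
    Reach (MM k) (init (MM k) w) (.ret ⟨n, hn⟩, [], .lend :: (v.map .old ++ [.rend])) := by
  induction n with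
  | zero =>
    exact (c_guess h [.lend] [.rend]).trans (c_ret' 0 .guess v .mA Del.gend)
  | succ n ih =>
    have h1 := ih (by omega)
    have h2 : Reach (MM k) (.ret ⟨n, by omega⟩, [], .lend :: (v.map .old ++ [.rend]))
        (.chk ⟨n, by omega⟩ .s0, [.lend], v.map .old ++ [.rend]) :=
      rs (Step.right (c := .lend) (Del.rend _))
    have h3 := c_chk (hv ⟨n, by omega⟩) [.lend] [.rend]
    have h4 := c_ret' (k := k) ⟨n + 1, hn⟩ (.chk ⟨n, by omega⟩ .s0) v .mA (Del.cnext _ _ rfl)
    exact ((h1.trans h2).trans h3).trans h4

theorem complete {w : List (Inp k)} {v : List (Wk k)} (h : List.Forall₂ mk1 w v) (hv : OK v) :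
    w ∈ (MM k).lang := by
  have h1 := c_all h hv k (by omega)
  have h2 : Reach (MM k) (.ret ⟨k, by omega⟩, [], .lend :: (v.map .old ++ [.rend]))
      (.chk ⟨k, by omega⟩ .s0, [.lend], v.map .old ++ [.rend]) :=
    rs (Step.right (c := .lend) (Del.rend _))
  have h3 := c_chk (hv ⟨k, by omega⟩) [.lend] [.rend]
  have h4 : Step (MM k) .right (.chk (Fin.last k) .s0, (v.map .old).reverse ++ [.lend], [.rend])
      (.acc, .rend :: ((v.map .old).reverse ++ [.lend]), []) :=
    Step.right (c := .rend) Del.cacc
  exact ⟨.acc, rfl, _, ((h1.trans h2).trans h3).trans (rs h4)⟩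

/-! ### Soundness -/

/-- the invariant -/
def Inv (w : List (Inp k)) : Conf (Inp k) (Qs k) (Wk k) → Prop
  | (.guess, L, R) => ∃ w1 w2 v1, w = w1 ++ w2 ∧ List.Forall₂ mk1 w1 v1 ∧
      L = (v1.map .old).reverse ++ [.lend] ∧ R = w2.map .new ++ [.rend]
  | (.ret t, L, R) => ∃ v, List.Forall₂ mk1 w v ∧ (∀ t' : Fin (k + 1), t' < t → run t' .s0 v = some .s0) ∧
      L.reverse ++ R = .lend :: (v.map .old ++ [.rend])
  | (.chk t s, L, R) => ∃ v, List.Forall₂ mk1 w v ∧
      (∀ t' : Fin (k + 1), t' < t → run t' .s0 v = some .s0) ∧
      ∃ v1 v2, v = v1 ++ v2 ∧ run t .s0 v1 = some s ∧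
        L = (v1.map .old).reverse ++ [.lend] ∧ R = v2.map .old ++ [.rend]
  | (.acc, _, _) => ∃ v, List.Forall₂ mk1 w v ∧ OK v

lemma inv_init (w : List (Inp k)) : Inv w (init (MM k) w) :=
  ⟨[], w, [], rfl, List.Forall₂.nil, rfl, rfl⟩

lemma inv_step (w : List (Inp k)) {d : Dir} {C C' : Conf (Inp k) (Qs k) (Wk k)} (h : Inv w C)
    (hs : Step (MM k) d C C') : Inv w C' := by
  cases hs with
  | @right q q' g L R c hδ =>
    change Del k q (c.read (MM k)) (q', g, .right) at hδ
    generalize hr : c.read (MM k) = r at hδ
    cases hδ with
    | copy g =>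
      obtain ⟨w1, w2, v1, h1, h2, h3, h4⟩ := h
      cases w2 with
      | nil =>
        simp only [List.map_nil, List.nil_append, List.cons.injEq] at h4
        rw [h4.1] at hr
        simp [Cell.read] at hr
      | cons a w2 =>
        simp only [List.map_cons, List.cons_append, List.cons.injEq] at h4
        obtain ⟨rfl, h5⟩ := h4
        simp only [Cell.read, Sym.sym.injEq] at hr
        refine ⟨w1 ++ [a], w2, v1 ++ [g], by simp [h1], ?_, ?_, h5⟩
        · exact List.rel_append h2 (List.Forall₂.cons (Or.inl hr.symm) List.Forall₂.nil)
        · simp [h3, Cell.write]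
    | markA =>
      obtain ⟨w1, w2, v1, h1, h2, h3, h4⟩ := h
      cases w2 with
      | nil =>
        simp only [List.map_nil, List.nil_append, List.cons.injEq] at h4
        rw [h4.1] at hr
        simp [Cell.read] at hr
      | cons a w2 =>
        simp only [List.map_cons, List.cons_append, List.cons.injEq] at h4
        obtain ⟨rfl, h5⟩ := h4
        have ha : a = .sA := by
          simp only [Cell.read, Sym.sym.injEq] at hr
          exact Wk.inp.inj hr
        refine ⟨w1 ++ [a], w2, v1 ++ [.mA], by simp [h1], ?_, ?_, h5⟩
        · exact List.rel_append h2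
            (List.Forall₂.cons (Or.inr (Or.inl ⟨ha, rfl⟩)) List.Forall₂.nil)
        · simp [h3, Cell.write]
    | markB =>
      obtain ⟨w1, w2, v1, h1, h2, h3, h4⟩ := h
      cases w2 with
      | nil =>
        simp only [List.map_nil, List.nil_append, List.cons.injEq] at h4
        rw [h4.1] at hr
        simp [Cell.read] at hr
      | cons a w2 =>
        simp only [List.map_cons, List.cons_append, List.cons.injEq] at h4
        obtain ⟨rfl, h5⟩ := h4
        have ha : a = .sB := by
          simp only [Cell.read, Sym.sym.injEq] at hr
          exact Wk.inp.inj hr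
        refine ⟨w1 ++ [a], w2, v1 ++ [.mB], by simp [h1], ?_, ?_, h5⟩
        · exact List.rel_append h2
            (List.Forall₂.cons (Or.inr (Or.inr ⟨ha, rfl⟩)) List.Forall₂.nil)
        · simp [h3, Cell.write]
    | rend t =>
      obtain ⟨v, h1, h2, h3⟩ := h
      have hc : c = .lend := by
        cases c <;> simp [Cell.read] at hr ⊢
      subst hc
      have hL : L = [] := by
        rcases List.eq_nil_or_concat L.reverse with h4 | ⟨L', x, h4⟩
        · simpa using h4
        · exfalso
          cases L' with
          | nil =>
            rw [h4] at h3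
            simp only [List.concat_eq_append, List.nil_append, List.cons_append,
              List.cons.injEq] at h3
            have h5 : (Cell.lend : Cell (Inp k) (Wk k)) ∈ v.map Cell.old ++ [.rend] := by
              rw [← h3.2]; simp
            simp at h5
          | cons y L' =>
            rw [h4] at h3
            simp only [List.concat_eq_append, List.cons_append, List.cons.injEq] at h3
            have h5 : (Cell.lend : Cell (Inp k) (Wk k)) ∈ v.map Cell.old ++ [.rend] := by
              rw [← h3.2]; simp
            simp at h5
      subst hL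
      simp only [List.reverse_nil, List.nil_append, List.cons.injEq, true_and] at h3
      exact ⟨v, h1, h2, [], v, rfl, rfl, rfl, h3⟩
    | cgo t s g s' hf =>
      obtain ⟨v, h1, h2, v1, v2, h3, h4, h5, h6⟩ := h
      cases v2 with
      | nil =>
        simp only [List.map_nil, List.nil_append, List.cons.injEq] at h6
        rw [h6.1] at hr
        simp [Cell.read] at hr
      | cons a v2 =>
        simp only [List.map_cons, List.cons_append, List.cons.injEq] at h6
        obtain ⟨rfl, h7⟩ := h6
        simp only [Cell.read, Sym.sym.injEq] at hr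
        subst hr
        refine ⟨v, h1, h2, v1 ++ [a], v2, by simp [h3], ?_, ?_, h7⟩
        · rw [run_append, h4]
          simp only [Option.bind_some, run]
          rw [hf]
          rfl
        · simp [h5, Cell.write]
    | cacc =>
      obtain ⟨v, h1, h2, v1, v2, h3, h4, h5, h6⟩ := h
      have hc : c = .rend := by
        cases c <;> simp [Cell.read] at hr ⊢
      subst hc
      have hv2 : v2 = [] := by
        cases v2 with
        | nil => rfl
        | cons a v2 =>
          simp at h6
      subst hv2
      rw [List.append_nil] at h3
      subst h3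
      refine ⟨v, h1, fun t => ?_⟩
      rcases lt_or_eq_of_le (Fin.le_last t) with ht | ht
      · exact h2 t ht
      · rw [ht]; exact h4
  | @left q q' g L R l c hδ =>
    change Del k q (c.read (MM k)) (q', g, .left) at hδ
    generalize hr : c.read (MM k) = r at hδ
    cases hδ with
    | gend =>
      obtain ⟨w1, w2, v1, h1, h2, h3, h4⟩ := h
      have hc : c = .rend := by
        cases c <;> simp [Cell.read] at hr ⊢
      subst hc
      have hw2 : w2 = [] := by
        cases w2 with
        | nil => rfl
        | cons a w2 => simp at h4
      subst hw2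
      simp only [List.map_nil, List.nil_append, List.cons.injEq, true_and] at h4
      subst h4
      rw [List.append_nil] at h1
      subst h1
      refine ⟨v1, h2, fun t' ht' => absurd ht' (by simp), ?_⟩
      have h5 := congrArg List.reverse h3
      simp only [List.reverse_cons, List.reverse_append, List.reverse_reverse, List.reverse_nil,
        List.nil_append, List.cons_append] at h5
      have h6 : L.reverse ++ (l :: (Cell.rend : Cell (Inp k) (Wk k)).write .mA :: []) =
          (L.reverse ++ [l]) ++ [.rend] := by simp [Cell.write]
      rw [h6, h5]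
      simp
    | rgo t g =>
      obtain ⟨v, h1, h2, h3⟩ := h
      have hc : c = .old g := by
        cases c with
        | lend => simp [Cell.read] at hr
        | rend => simp [Cell.read] at hr
        | new a =>
          exfalso
          have h5 : (Cell.new a : Cell (Inp k) (Wk k)) ∈ .lend :: (v.map Cell.old ++ [.rend]) := by
            rw [← h3]; simp
          simp at h5
        | old g' =>
          simp only [Cell.read, Sym.sym.injEq] at hr
          rw [hr]
      subst hc
      refine ⟨v, h1, h2, ?_⟩
      rw [← h3]
      simp [Cell.write]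
    | cnext t t' ht =>
      obtain ⟨v, h1, h2, v1, v2, h3, h4, h5, h6⟩ := h
      have hc : c = .rend := by
        cases c <;> simp [Cell.read] at hr ⊢
      subst hc
      have hv2 : v2 = [] := by
        cases v2 with
        | nil => rfl
        | cons a v2 =>
          simp at h6
      subst hv2
      simp only [List.map_nil, List.nil_append, List.cons.injEq, true_and] at h6
      subst h6
      rw [List.append_nil] at h3
      subst h3
      refine ⟨v, h1, fun t'' ht'' => ?_, ?_⟩
      · rcases lt_or_eq_of_le (show t'' ≤ t by
          rw [Fin.le_def]; rw [Fin.lt_def] at ht''; omega) with h | h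
        · exact h2 _ h
        · rw [h]; exact h4
      · have h5' := congrArg List.reverse h5
        simp only [List.reverse_cons, List.reverse_append, List.reverse_reverse, List.reverse_nil,
          List.nil_append, List.cons_append] at h5'
        have h6 : L.reverse ++ (l :: (Cell.rend : Cell (Inp k) (Wk k)).write .mA :: []) =
            (L.reverse ++ [l]) ++ [.rend] := by simp [Cell.write]
        rw [h6, h5']
        simp

theorem sound {w : List (Inp k)} (h : w ∈ (MM k).lang) :
    ∃ v, List.Forall₂ mk1 w v ∧ OK v := by
  obtain ⟨q, hq, L, hr⟩ := h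
  have hq' : q = .acc := hq
  subst hq'
  have key : ∀ C, Reach (MM k) (init (MM k) w) C → Inv w C := by
    intro C hC
    induction hC with
    | refl => exact inv_init w
    | tail _ h1 ih =>
      obtain ⟨d, h1⟩ := h1
      exact inv_step w ih h1
  exact key _ hr

/-! ### The machine is sweeping -/

/-- the direction of a state -/
def dirOf : Qs k → Dir
  | .ret _ => .left
  | _ => .right

lemma del_dir {q : Qs k} {s : Sym (Wk k)} {x : Qs k × Wk k × Dir} (h : Del k q s x) :
    dirOf x.1 = x.2.2 := by
  cases h <;> rfl

lemma del_dir' {q : Qs k} {g : Wk k} {x : Qs k × Wk k × Dir} (h : Del k q (.sym g) x) :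
    x.2.2 = dirOf q := by
  cases h <;> rfl

lemma step_dir {d : Dir} {C C' : Conf (Inp k) (Qs k) (Wk k)} (h : Step (MM k) d C C') :
    dirOf C'.1 = d ∧ (OnInput C → d = dirOf C.1) := by
  cases h with
  | @right q q' g L R c hδ =>
    change Del k q (c.read (MM k)) (q', g, .right) at hδ
    refine ⟨del_dir hδ, ?_⟩
    rintro ⟨c', R', h1, h2, h3⟩
    simp only [List.cons.injEq] at h1
    obtain ⟨rfl, -⟩ := h1
    cases c with
    | lend => exact absurd rfl h2
    | rend => exact absurd rfl h3
    | new a => exact del_dir' hδ
    | old g' => exact del_dir' hδ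
  | @left q q' g L R l c hδ =>
    change Del k q (c.read (MM k)) (q', g, .left) at hδ
    refine ⟨del_dir hδ, ?_⟩
    rintro ⟨c', R', h1, h2, h3⟩
    simp only [List.cons.injEq] at h1
    obtain ⟨rfl, -⟩ := h1
    cases c with
    | lend => exact absurd rfl h2
    | rend => exact absurd rfl h3
    | new a => exact del_dir' hδ
    | old g' => exact del_dir' hδ

/-! ### Its size -/

/-- coding of the input alphabet -/
def eInp (k : ℕ) : Inp k ≃ (Fin 3 ⊕ (Fin (k + 1) × Bool)) where
  toFun
    | .sA => .inl 0
    | .sB => .inl 1
    | .hash => .inl 2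
    | .bit t b => .inr (t, b)
  invFun
    | .inl 0 => .sA
    | .inl 1 => .sB
    | .inl 2 => .hash
    | .inr (t, b) => .bit t b
  left_inv x := by cases x <;> rfl
  right_inv x := by
    rcases x with x | ⟨t, b⟩
    · fin_cases x <;> rfl
    · rfl

/-- coding of the work alphabet -/
def eWk (k : ℕ) : Wk k ≃ (Fin 2 ⊕ Inp k) where
  toFun
    | .mA => .inl 0
    | .mB => .inl 1
    | .inp a => .inr a
  invFun
    | .inl 0 => .mA
    | .inl 1 => .mB
    | .inr a => .inp a
  left_inv x := by cases x <;> rfl
  right_inv x := by
    rcases x with x | a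
    · fin_cases x <;> rfl
    · rfl

/-- coding of the states of a check -/
def eSt : St ≃ (Fin 3 ⊕ (Fin 2 × Bool)) where
  toFun
    | .s0 => .inl 0
    | .actA => .inl 1
    | .gotB => .inl 2
    | .gotA b => .inr (0, b)
    | .actB b => .inr (1, b)
  invFun
    | .inl 0 => .s0
    | .inl 1 => .actA
    | .inl 2 => .gotB
    | .inr (0, b) => .gotA b
    | .inr (1, b) => .actB b
  left_inv x := by cases x <;> rfl
  right_inv x := by
    rcases x with x | ⟨t, b⟩
    · fin_cases x <;> rfl
    · fin_cases t <;> rfl

/-- coding of the states -/
def eQs (k : ℕ) : Qs k ≃ (Fin 2 ⊕ (Fin (k + 1) ⊕ (Fin (k + 1) × St))) where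
  toFun
    | .guess => .inl 0
    | .acc => .inl 1
    | .ret t => .inr (.inl t)
    | .chk t s => .inr (.inr (t, s))
  invFun
    | .inl 0 => .guess
    | .inl 1 => .acc
    | .inr (.inl t) => .ret t
    | .inr (.inr (t, s)) => .chk t s
  left_inv x := by cases x <;> rfl
  right_inv x := by
    rcases x with x | t | ⟨t, s⟩
    · fin_cases x <;> rfl
    · rfl
    · rfl

lemma card_inp (k : ℕ) : Nat.card (Inp k) = 2 * (k + 1) + 3 := by
  rw [Nat.card_congr (eInp k)]
  simp
  ring

lemma card_wk (k : ℕ) : Nat.card (Wk k) = 2 * (k + 1) + 5 := by
  haveI : Finite (Inp k) := Finite.of_equiv _ (eInp k).symm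
  rw [Nat.card_congr (eWk k), Nat.card_sum, card_inp]
  simp
  ring

lemma card_st : Nat.card St = 7 := by
  rw [Nat.card_congr eSt]
  simp

lemma card_qs (k : ℕ) : Nat.card (Qs k) = 8 * (k + 1) + 2 := by
  haveI : Finite St := Finite.of_equiv _ eSt.symm
  rw [Nat.card_congr (eQs k), Nat.card_sum, Nat.card_sum, Nat.card_prod, card_st]
  simp
  ring

/-- at most two moves for each state and symbol -/
lemma branch (k : ℕ) (q : Qs k) (s : Sym (Wk k)) : ((MM k).δ q s).ncard ≤ 2 := by
  have key : ∃ x y, (MM k).δ q s ⊆ {x, y} := by
    have h0 : ∀ x y, (MM k).δ q s ⊆ {x, y} ↔ ∀ z, Del k q s z → z = x ∨ z = y := by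
      intro x y
      constructor
      · intro h z hz
        exact h hz
      · intro h z hz
        exact h z hz
    simp only [h0]
    cases q with
    | guess =>
      cases s with
      | lend => exact ⟨(.acc, .mA, .left), (.acc, .mA, .left), fun z hz => by cases hz⟩
      | rend =>
        refine ⟨(.ret 0, .mA, .left), (.ret 0, .mA, .left), fun z hz => ?_⟩
        cases hz
        exact Or.inl rfl
      | sym g =>
        by_cases hg : g = .inp .sA
        · subst hg
          refine ⟨(.guess, .inp .sA, .right), (.guess, .mA, .right), fun z hz => ?_⟩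
          cases hz
          · exact Or.inl rfl
          · exact Or.inr rfl
        · refine ⟨(.guess, g, .right), (.guess, .mB, .right), fun z hz => ?_⟩
          cases hz
          · exact Or.inl rfl
          · exact absurd rfl hg
          · exact Or.inr rfl
    | ret t =>
      cases s with
      | lend =>
        refine ⟨(.chk t .s0, .mA, .right), (.chk t .s0, .mA, .right), fun z hz => ?_⟩
        cases hz
        exact Or.inl rfl
      | rend => exact ⟨(.acc, .mA, .left), (.acc, .mA, .left), fun z hz => by cases hz⟩
      | sym g =>
        refine ⟨(.ret t, g, .left), (.ret t, g, .left), fun z hz => ?_⟩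
        cases hz
        exact Or.inl rfl
    | chk t s' =>
      cases s with
      | lend => exact ⟨(.acc, .mA, .left), (.acc, .mA, .left), fun z hz => by cases hz⟩
      | rend =>
        by_cases ht : t.val + 1 < k + 1
        · refine ⟨(.ret ⟨t.val + 1, ht⟩, .mA, .left), (.acc, .mA, .right), fun z hz => ?_⟩
          cases hz with
          | cnext _ t' h =>
            left
            have : t' = ⟨t.val + 1, ht⟩ := Fin.ext h
            rw [this]
          | cacc => exact Or.inr rfl
        · refine ⟨(.acc, .mA, .right), (.acc, .mA, .right), fun z hz => ?_⟩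
          cases hz with
          | cnext _ t' h =>
            exfalso
            have := t'.isLt
            omega
          | cacc => exact Or.inr rfl
      | sym g =>
        cases hf : fstep t s' g with
        | none =>
          refine ⟨(.acc, .mA, .left), (.acc, .mA, .left), fun z hz => ?_⟩
          cases hz with
          | cgo _ _ _ s'' h =>
            rw [hf] at h
            simp at h
        | some s'' =>
          refine ⟨(.chk t s'', g, .right), (.chk t s'', g, .right), fun z hz => ?_⟩
          cases hz with
          | cgo _ _ _ s3 h =>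
            rw [hf] at h
            simp only [Option.some.injEq] at h
            rw [h]
            exact Or.inl rfl
    | acc => exact ⟨(.acc, .mA, .left), (.acc, .mA, .left), fun z hz => by cases hz⟩
  obtain ⟨x, y, h⟩ := key
  have h2 := Set.ncard_insert_le x {y}
  rw [Set.ncard_singleton] at h2
  exact (Set.ncard_le_ncard h (Set.toFinite _)).trans h2

theorem sweeping (k : ℕ) : (MM k).Sweeping := by
  intro w
  refine ⟨fun d C h hin => ?_, fun C C' C'' d d' _ h1 h2 hin => ?_⟩
  · exact (step_dir h).2 hin
  · rw [(step_dir h2).2 hin, (step_dir h1).1]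

end Pool.Agent.Q230.LAS
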