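import Pool.Agent.Q230.LAS.Def

/-!
# A nondeterministic sweeping machine of linear size

Bit strings of length `n = k + 1` are written behind a separator. The machine marks separators
nondeterministically in the first sweep; in `n` further sweeps to the right it checks that in each
block exactly one separator of each kind is marked and that the two strings behind the marked
separators are equal. In the sweep for the bit `t` a counter modulo `n + 1`, which has the value
`t + 1` at the separators, is decreased in every cell; the bit read with the value `0` is compared.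
-/

set_option autoImplicit false

namespace Pool.Agent.Q230.LAS.V2

open Relation

/-- the input alphabet -/
inductive Inp
  | sA
  | sB
  | hash
  | bit (b : Bool)
  deriving DecidableEq

/-- the work alphabet: the input alphabet and two marked separators -/
inductive Wk
  | inp (a : Inp)
  | mA
  | mB
  deriving DecidableEq

/-- states of a check -/
inductive St
  | s0
  | actA
  | gotA (b : Bool)
  | actB (b : Bool)
  | gotB
  deriving DecidableEq

/-- the states -/
inductive Qs (k : ℕ)
  | guess
  | ret (c : Fin (k + 2))
  | chk (c : Fin (k + 2)) (s : St)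
  | acc
  deriving DecidableEq

variable {k : ℕ}

/-- the counter modulo `k + 2` is decreased -/
def dec (c : Fin (k + 2)) : Fin (k + 2) :=
  if c.val = 0 then Fin.last (k + 1) else ⟨c.val - 1, by omega⟩

/-- a bit is read with the counter `0` -/
def act : St → Bool → Option St
  | .actA, b => some (.gotA b)
  | .actB c, b => if b = c then some .gotB else none
  | s, _ => some s

/-- separators and the end of a block -/
def sep : St → Wk → Option St
  | .s0, .inp .sA => some .s0
  | .gotA b, .inp .sA => some (.gotA b)
  | .s0, .mA => some .actA
  | .s0, .inp .sB => some .s0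
  | .gotA b, .inp .sB => some (.gotA b)
  | .gotB, .inp .sB => some .gotB
  | .gotA b, .mB => some (.actB b)
  | .gotB, .inp .hash => some .s0
  | _, _ => none

/-- one step of a check -/
def fstep (x : Fin (k + 2) × St) : Wk → Option (Fin (k + 2) × St)
  | .inp (.bit b) => if x.1.val = 0 then (act x.2 b).map fun s => (dec x.1, s)
      else some (dec x.1, x.2)
  | .inp .hash => (sep x.2 (.inp .hash)).map fun s => (x.1, s)
  | g => (sep x.2 g).map fun s => (dec x.1, s)

/-- the moves -/
inductive Del (k : ℕ) : Qs k → Sym Wk → Qs k × Wk × Dir → Prop
  | copy (g : Wk) : Del k .guess (.sym g) (.guess, g, .right)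
  | markA : Del k .guess (.sym (.inp .sA)) (.guess, .mA, .right)
  | markB : Del k .guess (.sym (.inp .sB)) (.guess, .mB, .right)
  | gend : Del k .guess .rend (.ret 1, .mA, .left)
  | rgo (c : Fin (k + 2)) (g : Wk) : Del k (.ret c) (.sym g) (.ret c, g, .left)
  | rend (c : Fin (k + 2)) : Del k (.ret c) .lend (.chk c .s0, .mA, .right)
  | cgo (x : Fin (k + 2) × St) (g : Wk) (x' : Fin (k + 2) × St) (h : fstep x g = some x') :
      Del k (.chk x.1 x.2) (.sym g) (.chk x'.1 x'.2, g, .right)
  | cnext (c c' : Fin (k + 2)) (h : c'.val = c.val + 1) :
      Del k (.chk c .s0) .rend (.ret c', .mA, .left)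
  | cacc : Del k (.chk (Fin.last (k + 1)) .s0) .rend (.acc, .mA, .right)

/-- the machine -/
def MM (k : ℕ) : LA Inp (Qs k) Wk where
  emb := ⟨.inp, fun _ _ h => by injection h⟩
  δ q s := {x | Del k q s x}
  start := .guess
  fin := {.acc}

/-- the check as a function of words -/
def run : Fin (k + 2) × St → List Wk → Option (Fin (k + 2) × St)
  | x, [] => some x
  | x, g :: v => (fstep x g).bind fun x' => run x' v

lemma run_append (x : Fin (k + 2) × St) (v1 v2 : List Wk) :
    run x (v1 ++ v2) = (run x v1).bind fun x' => run x' v2 := by
  induction v1 generalizing x with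
  | nil => rfl
  | cons g v ih =>
    simp only [List.cons_append, run]
    cases fstep x g with
    | none => rfl
    | some x =>
      simp only [Option.bind_some]
      rw [ih]

/-- markings -/
def mk1 (a : Inp) (g : Wk) : Prop :=
  g = .inp a ∨ (a = .sA ∧ g = .mA) ∨ (a = .sB ∧ g = .mB)

/-- the values of the counter with which a sweep begins -/
inductive Rch (v : List Wk) : Fin (k + 2) → Prop
  | one : Rch v 1
  | next {c c' c'' : Fin (k + 2)} : Rch v c → run (c, .s0) v = some (c', .s0) →
      c''.val = c'.val + 1 → Rch v c''

/-- acceptance of a marked word -/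
def AccV (k : ℕ) (v : List Wk) : Prop :=
  ∃ c : Fin (k + 2), Rch v c ∧ run (c, .s0) v = some (Fin.last (k + 1), .s0)

/-! ### Completeness -/

lemma rs {d : Dir} {C C' : Conf Inp (Qs k) Wk} (h : Step (MM k) d C C') :
    Reach (MM k) C C' :=
  ReflTransGen.single ⟨d, h⟩

lemma c_guess {w : List Inp} {v : List Wk} (h : List.Forall₂ mk1 w v)
    (L R : List (Cell Inp Wk)) :
    Reach (MM k) (.guess, L, w.map .new ++ R) (.guess, (v.map .old).reverse ++ L, R) := by
  induction h generalizing L with
  | nil => exact ReflTransGen.refl
  | @cons a g w v h1 _ ih =>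
    have h2 : Step (MM k) .right (.guess, L, Cell.new a :: (w.map .new ++ R))
        (.guess, (Cell.new a : Cell Inp Wk).write g :: L, w.map .new ++ R) := by
      refine Step.right ?_
      rcases h1 with rfl | ⟨rfl, rfl⟩ | ⟨rfl, rfl⟩
      · exact Del.copy _
      · exact Del.markA
      · exact Del.markB
    refine (rs h2).trans ?_
    have h3 := ih ((Cell.new a : Cell Inp Wk).write g :: L)
    simpa [Cell.write, Reach] using h3

lemma c_chk {v : List Wk} {x x' : Fin (k + 2) × St} (h : run x v = some x')
    (L R : List (Cell Inp Wk)) :
    Reach (MM k) (.chk x.1 x.2, L, v.map .old ++ R)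
      (.chk x'.1 x'.2, (v.map .old).reverse ++ L, R) := by
  induction v generalizing x L with
  | nil =>
    simp only [run, Option.some.injEq] at h
    subst h
    exact ReflTransGen.refl
  | cons g v ih =>
    simp only [run] at h
    cases hx : fstep x g with
    | none => rw [hx] at h; simp at h
    | some y =>
      rw [hx] at h
      simp only [Option.bind_some] at h
      have h2 : Step (MM k) .right (.chk x.1 x.2, L, Cell.old g :: (v.map .old ++ R))
          (.chk y.1 y.2, (Cell.old g : Cell Inp Wk).write g :: L, v.map .old ++ R) :=
        Step.right (Del.cgo x g y hx)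
      refine (rs h2).trans ?_
      have h3 := ih h ((Cell.old g : Cell Inp Wk).write g :: L)
      simpa [Cell.write, Reach] using h3

lemma c_ret (t : Fin (k + 2)) (v : List Wk) (c : Wk) (R : List (Cell Inp Wk)) :
    Reach (MM k) (.ret t, (v.map .old).reverse ++ [.lend], .old c :: R)
      (.ret t, [], .lend :: (v.map .old ++ .old c :: R)) := by
  induction v using List.reverseRecOn generalizing c R with
  | nil => exact rs (Step.left (c := .old c) (Del.rgo t c))
  | append_singleton v g ih =>
    have h1 := ih g (.old c :: R)
    have h2 : Step (MM k) .left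
        (.ret t, .old g :: ((v.map .old).reverse ++ [.lend]), Cell.old c :: R)
        (.ret t, (v.map .old).reverse ++ [.lend],
          .old g :: (Cell.old c : Cell Inp Wk).write c :: R) :=
      Step.left (Del.rgo t c)
    have h3 := (rs h2).trans h1
    simpa [Reach] using h3

lemma c_ret' (t : Fin (k + 2)) (q : Qs k) (v : List Wk) (g : Wk)
    (hq : Del k q .rend (.ret t, g, .left)) :
    Reach (MM k) (q, (v.map .old).reverse ++ [.lend], [.rend])
      (.ret t, [], .lend :: (v.map .old ++ [.rend])) := by
  induction v using List.reverseRecOn with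
  | nil => exact rs (Step.left (c := .rend) hq)
  | append_singleton v c _ =>
    have h1 := c_ret t v c [.rend]
    have h2 : Step (MM k) .left
        (q, .old c :: ((v.map .old).reverse ++ [.lend]), [.rend])
        (.ret t, (v.map .old).reverse ++ [.lend],
          .old c :: (Cell.rend : Cell Inp Wk).write g :: []) :=
      Step.left hq
    have h3 := (rs h2).trans h1
    simpa [Reach] using h3

lemma c_all {w : List Inp} {v : List Wk} (h : List.Forall₂ mk1 w v) {c : Fin (k + 2)}
    (hc : Rch v c) :
    Reach (MM k) (init (MM k) w) (.ret c, [], .lend :: (v.map .old ++ [.rend])) := by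
  induction hc with
  | one => exact (c_guess h [.lend] [.rend]).trans (c_ret' 1 .guess v .mA Del.gend)
  | @next c c' c'' _ h2 h3 ih =>
    have h4 : Reach (MM k) (.ret c, [], .lend :: (v.map .old ++ [.rend]))
        (.chk c .s0, [.lend], v.map .old ++ [.rend]) :=
      rs (Step.right (c := .lend) (Del.rend _))
    have h5 := c_chk h2 [.lend] [.rend]
    have h6 := c_ret' (k := k) c'' (.chk c' .s0) v .mA (Del.cnext _ _ h3)
    exact ((ih.trans h4).trans h5).trans h6

theorem complete {w : List Inp} {v : List Wk} (h : List.Forall₂ mk1 w v) (hv : AccV k v) :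
    w ∈ (MM k).lang := by
  obtain ⟨c, hc, hr⟩ := hv
  have h1 := c_all h hc
  have h2 : Reach (MM k) (.ret c, [], .lend :: (v.map .old ++ [.rend]))
      (.chk c .s0, [.lend], v.map .old ++ [.rend]) :=
    rs (Step.right (c := .lend) (Del.rend _))
  have h3 := c_chk hr [.lend] [.rend]
  have h4 : Step (MM k) .right
      (.chk (Fin.last (k + 1)) .s0, (v.map .old).reverse ++ [.lend], [.rend])
      (.acc, .rend :: ((v.map .old).reverse ++ [.lend]), []) :=
    Step.right (c := .rend) Del.cacc
  exact ⟨.acc, rfl, _, ((h1.trans h2).trans h3).trans (rs h4)⟩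

/-! ### Soundness -/

/-- the invariant -/
def Inv (w : List Inp) : Conf Inp (Qs k) Wk → Prop
  | (.guess, L, R) => ∃ w1 w2 v1, w = w1 ++ w2 ∧ List.Forall₂ mk1 w1 v1 ∧
      L = (v1.map .old).reverse ++ [.lend] ∧ R = w2.map .new ++ [.rend]
  | (.ret t, L, R) => ∃ v, List.Forall₂ mk1 w v ∧ Rch v t ∧
      L.reverse ++ R = .lend :: (v.map .old ++ [.rend])
  | (.chk c s, L, R) => ∃ v, List.Forall₂ mk1 w v ∧ ∃ c0 : Fin (k + 2), Rch v c0 ∧
      ∃ v1 v2, v = v1 ++ v2 ∧ run (c0, .s0) v1 = some (c, s) ∧
        L = (v1.map .old).reverse ++ [.lend] ∧ R = v2.map .old ++ [.rend]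
  | (.acc, _, _) => ∃ v, List.Forall₂ mk1 w v ∧ AccV k v

lemma inv_init (w : List Inp) : Inv w (init (MM k) w) :=
  ⟨[], w, [], rfl, List.Forall₂.nil, rfl, rfl⟩

lemma inv_step (w : List Inp) {d : Dir} {C C' : Conf Inp (Qs k) Wk} (h : Inv w C)
    (hs : Step (MM k) d C C') : Inv w C' := by
  cases hs with
  | @right q q' g L R c hδ =>
    change Del k q (c.read (MM k)) (q', g, .right) at hδ
    generalize hr : c.read (MM k) = r at hδ
    cases hδ with
    | copy g =>
      obtain ⟨w1, w2, v1, h1, h2, h3, h4⟩ := h
      cases w2 with
      | nil =>
        simp only [List.map_nil, List.nil_append, List.cons.injEq] at h4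
        rw [h4.1] at hr
        simp [Cell.read] at hr
      | cons a w2 =>
        simp only [List.map_cons, List.cons_append, List.cons.injEq] at h4
        obtain ⟨rfl, h5⟩ := h4
        simp only [Cell.read, Sym.sym.injEq] at hr
        refine ⟨w1 ++ [a], w2, v1 ++ [g], by simp [h1], ?_, ?_, h5⟩
        · exact List.rel_append h2 (List.Forall₂.cons (Or.inl hr.symm) List.Forall₂.nil)
        · simp [h3, Cell.write]
    | markA =>
      obtain ⟨w1, w2, v1, h1, h2, h3, h4⟩ := h
      cases w2 with
      | nil =>
        simp only [List.map_nil, List.nil_append, List.cons.injEq] at h4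
        rw [h4.1] at hr
        simp [Cell.read] at hr
      | cons a w2 =>
        simp only [List.map_cons, List.cons_append, List.cons.injEq] at h4
        obtain ⟨rfl, h5⟩ := h4
        have ha : a = .sA := by
          simp only [Cell.read, Sym.sym.injEq] at hr
          exact Wk.inp.inj hr
        refine ⟨w1 ++ [a], w2, v1 ++ [.mA], by simp [h1], ?_, ?_, h5⟩
        · exact List.rel_append h2
            (List.Forall₂.cons (Or.inr (Or.inl ⟨ha, rfl⟩)) List.Forall₂.nil)
        · simp [h3, Cell.write]
    | markB =>
      obtain ⟨w1, w2, v1, h1, h2, h3, h4⟩ := h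
      cases w2 with
      | nil =>
        simp only [List.map_nil, List.nil_append, List.cons.injEq] at h4
        rw [h4.1] at hr
        simp [Cell.read] at hr
      | cons a w2 =>
        simp only [List.map_cons, List.cons_append, List.cons.injEq] at h4
        obtain ⟨rfl, h5⟩ := h4
        have ha : a = .sB := by
          simp only [Cell.read, Sym.sym.injEq] at hr
          exact Wk.inp.inj hr
        refine ⟨w1 ++ [a], w2, v1 ++ [.mB], by simp [h1], ?_, ?_, h5⟩
        · exact List.rel_append h2
            (List.Forall₂.cons (Or.inr (Or.inr ⟨ha, rfl⟩)) List.Forall₂.nil)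
        · simp [h3, Cell.write]
    | rend t =>
      obtain ⟨v, h1, h2, h3⟩ := h
      have hc : c = .lend := by
        cases c <;> simp [Cell.read] at hr ⊢
      subst hc
      have hL : L = [] := by
        rcases List.eq_nil_or_concat L.reverse with h4 | ⟨L', x, h4⟩
        · simpa using h4
        · exfalso
          cases L' with
          | nil =>
            rw [h4] at h3
            simp only [List.concat_eq_append, List.nil_append, List.cons_append,
              List.cons.injEq] at h3
            have h5 : (Cell.lend : Cell Inp Wk) ∈ v.map Cell.old ++ [.rend] := by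
              rw [← h3.2]; simp
            simp at h5
          | cons y L' =>
            rw [h4] at h3
            simp only [List.concat_eq_append, List.cons_append, List.cons.injEq] at h3
            have h5 : (Cell.lend : Cell Inp Wk) ∈ v.map Cell.old ++ [.rend] := by
              rw [← h3.2]; simp
            simp at h5
      subst hL
      simp only [List.reverse_nil, List.nil_append, List.cons.injEq, true_and] at h3
      exact ⟨v, h1, t, h2, [], v, rfl, rfl, rfl, h3⟩
    | cgo x g x' hf =>
      obtain ⟨v, h1, c0, h2, v1, v2, h3, h4, h5, h6⟩ := h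
      cases v2 with
      | nil =>
        simp only [List.map_nil, List.nil_append, List.cons.injEq] at h6
        rw [h6.1] at hr
        simp [Cell.read] at hr
      | cons a v2 =>
        simp only [List.map_cons, List.cons_append, List.cons.injEq] at h6
        obtain ⟨rfl, h7⟩ := h6
        simp only [Cell.read, Sym.sym.injEq] at hr
        subst hr
        refine ⟨v, h1, c0, h2, v1 ++ [a], v2, by simp [h3], ?_, ?_, h7⟩
        · rw [run_append, h4]
          simp only [Option.bind_some, run]
          rw [hf]
          rfl
        · simp [h5, Cell.write]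
    | cacc =>
      obtain ⟨v, h1, c0, h2, v1, v2, h3, h4, h5, h6⟩ := h
      have hc : c = .rend := by
        cases c <;> simp [Cell.read] at hr ⊢
      subst hc
      have hv2 : v2 = [] := by
        cases v2 with
        | nil => rfl
        | cons a v2 =>
          simp at h6
      subst hv2
      rw [List.append_nil] at h3
      subst h3
      exact ⟨v, h1, c0, h2, h4⟩
  | @left q q' g L R l c hδ =>
    change Del k q (c.read (MM k)) (q', g, .left) at hδ
    generalize hr : c.read (MM k) = r at hδ
    cases hδ with
    | gend =>
      obtain ⟨w1, w2, v1, h1, h2, h3, h4⟩ := h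
      have hc : c = .rend := by
        cases c <;> simp [Cell.read] at hr ⊢
      subst hc
      have hw2 : w2 = [] := by
        cases w2 with
        | nil => rfl
        | cons a w2 => simp at h4
      subst hw2
      simp only [List.map_nil, List.nil_append, List.cons.injEq, true_and] at h4
      subst h4
      rw [List.append_nil] at h1
      subst h1
      refine ⟨v1, h2, Rch.one, ?_⟩
      have h5 := congrArg List.reverse h3
      simp only [List.reverse_cons, List.reverse_append, List.reverse_reverse, List.reverse_nil,
        List.nil_append, List.cons_append] at h5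
      have h6 : L.reverse ++ (l :: (Cell.rend : Cell Inp Wk).write .mA :: []) =
          (L.reverse ++ [l]) ++ [.rend] := by simp [Cell.write]
      rw [h6, h5]
      simp
    | rgo t g =>
      obtain ⟨v, h1, h2, h3⟩ := h
      have hc : c = .old g := by
        cases c with
        | lend => simp [Cell.read] at hr
        | rend => simp [Cell.read] at hr
        | new a =>
          exfalso
          have h5 : (Cell.new a : Cell Inp Wk) ∈ .lend :: (v.map Cell.old ++ [.rend]) := by
            rw [← h3]; simp
          simp at h5
        | old g' =>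
          simp only [Cell.read, Sym.sym.injEq] at hr
          rw [hr]
      subst hc
      refine ⟨v, h1, h2, ?_⟩
      rw [← h3]
      simp [Cell.write]
    | cnext t t' ht =>
      obtain ⟨v, h1, c0, h2, v1, v2, h3, h4, h5, h6⟩ := h
      have hc : c = .rend := by
        cases c <;> simp [Cell.read] at hr ⊢
      subst hc
      have hv2 : v2 = [] := by
        cases v2 with
        | nil => rfl
        | cons a v2 =>
          simp at h6
      subst hv2
      simp only [List.map_nil, List.nil_append, List.cons.injEq, true_and] at h6
      subst h6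
      rw [List.append_nil] at h3
      subst h3
      refine ⟨v, h1, Rch.next h2 h4 ht, ?_⟩
      have h5' := congrArg List.reverse h5
      simp only [List.reverse_cons, List.reverse_append, List.reverse_reverse, List.reverse_nil,
        List.nil_append, List.cons_append] at h5'
      have h6 : L.reverse ++ (l :: (Cell.rend : Cell Inp Wk).write .mA :: []) =
          (L.reverse ++ [l]) ++ [.rend] := by simp [Cell.write]
      rw [h6, h5']
      simp

theorem sound {w : List Inp} (h : w ∈ (MM k).lang) :
    ∃ v, List.Forall₂ mk1 w v ∧ AccV k v := by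
  obtain ⟨q, hq, L, hr⟩ := h
  have hq' : q = .acc := hq
  subst hq'
  have key : ∀ C, Reach (MM k) (init (MM k) w) C → Inv w C := by
    intro C hC
    induction hC with
    | refl => exact inv_init w
    | tail _ h1 ih =>
      obtain ⟨d, h1⟩ := h1
      exact inv_step w ih h1
  exact key _ hr

/-! ### The machine is sweeping -/

/-- the direction of a state -/
def dirOf : Qs k → Dir
  | .ret _ => .left
  | _ => .right

lemma del_dir {q : Qs k} {s : Sym Wk} {x : Qs k × Wk × Dir} (h : Del k q s x) :
    dirOf x.1 = x.2.2 := by
  cases h <;> rfl

lemma del_dir' {q : Qs k} {g : Wk} {x : Qs k × Wk × Dir} (h : Del k q (.sym g) x) :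
    x.2.2 = dirOf q := by
  cases h <;> rfl

lemma step_dir {d : Dir} {C C' : Conf Inp (Qs k) Wk} (h : Step (MM k) d C C') :
    dirOf C'.1 = d ∧ (OnInput C → d = dirOf C.1) := by
  cases h with
  | @right q q' g L R c hδ =>
    change Del k q (c.read (MM k)) (q', g, .right) at hδ
    refine ⟨del_dir hδ, ?_⟩
    rintro ⟨c', R', h1, h2, h3⟩
    simp only [List.cons.injEq] at h1
    obtain ⟨rfl, -⟩ := h1
    cases c with
    | lend => exact absurd rfl h2
    | rend => exact absurd rfl h3
    | new a => exact del_dir' hδ
    | old g' => exact del_dir' hδ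
  | @left q q' g L R l c hδ =>
    change Del k q (c.read (MM k)) (q', g, .left) at hδ
    refine ⟨del_dir hδ, ?_⟩
    rintro ⟨c', R', h1, h2, h3⟩
    simp only [List.cons.injEq] at h1
    obtain ⟨rfl, -⟩ := h1
    cases c with
    | lend => exact absurd rfl h2
    | rend => exact absurd rfl h3
    | new a => exact del_dir' hδ
    | old g' => exact del_dir' hδ

theorem sweeping (k : ℕ) : (MM k).Sweeping := by
  intro w
  refine ⟨fun d C h hin => ?_, fun C C' C'' d d' _ h1 h2 hin => ?_⟩
  · exact (step_dir h).2 hin
  · rw [(step_dir h2).2 hin, (step_dir h1).1]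

/-! ### Its size -/

/-- coding of the input alphabet -/
def eInp : Inp ≃ (Fin 3 ⊕ Bool) where
  toFun
    | .sA => .inl 0
    | .sB => .inl 1
    | .hash => .inl 2
    | .bit b => .inr b
  invFun
    | .inl 0 => .sA
    | .inl 1 => .sB
    | .inl 2 => .hash
    | .inr b => .bit b
  left_inv x := by cases x <;> rfl
  right_inv x := by
    rcases x with x | b
    · fin_cases x <;> rfl
    · rfl

/-- coding of the work alphabet -/
def eWk : Wk ≃ (Fin 2 ⊕ Inp) where
  toFun
    | .mA => .inl 0
    | .mB => .inl 1
    | .inp a => .inr a
  invFun
    | .inl 0 => .mA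
    | .inl 1 => .mB
    | .inr a => .inp a
  left_inv x := by cases x <;> rfl
  right_inv x := by
    rcases x with x | a
    · fin_cases x <;> rfl
    · rfl

/-- coding of the states of a check -/
def eSt : St ≃ (Fin 3 ⊕ (Fin 2 × Bool)) where
  toFun
    | .s0 => .inl 0
    | .actA => .inl 1
    | .gotB => .inl 2
    | .gotA b => .inr (0, b)
    | .actB b => .inr (1, b)
  invFun
    | .inl 0 => .s0
    | .inl 1 => .actA
    | .inl 2 => .gotB
    | .inr (0, b) => .gotA b
    | .inr (1, b) => .actB b
  left_inv x := by cases x <;> rfl
  right_inv x := by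
    rcases x with x | ⟨t, b⟩
    · fin_cases x <;> rfl
    · fin_cases t <;> rfl

/-- coding of the states -/
def eQs (k : ℕ) : Qs k ≃ (Fin 2 ⊕ (Fin (k + 2) ⊕ (Fin (k + 2) × St))) where
  toFun
    | .guess => .inl 0
    | .acc => .inl 1
    | .ret t => .inr (.inl t)
    | .chk t s => .inr (.inr (t, s))
  invFun
    | .inl 0 => .guess
    | .inl 1 => .acc
    | .inr (.inl t) => .ret t
    | .inr (.inr (t, s)) => .chk t s
  left_inv x := by cases x <;> rfl
  right_inv x := by
    rcases x with x | t | ⟨t, s⟩
    · fin_cases x <;> rfl
    · rfl
    · rfl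

lemma card_inp : Nat.card Inp = 5 := by
  rw [Nat.card_congr eInp]
  simp

lemma card_wk : Nat.card Wk = 7 := by
  haveI : Finite Inp := Finite.of_equiv _ eInp.symm
  rw [Nat.card_congr eWk, Nat.card_sum, card_inp]
  simp

lemma card_st : Nat.card St = 7 := by
  rw [Nat.card_congr eSt]
  simp

lemma card_qs (k : ℕ) : Nat.card (Qs k) = 8 * (k + 1) + 10 := by
  haveI : Finite St := Finite.of_equiv _ eSt.symm
  rw [Nat.card_congr (eQs k), Nat.card_sum, Nat.card_sum, Nat.card_prod, card_st]
  simp
  ring

/-- at most two moves for each state and symbol -/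
lemma branch (k : ℕ) (q : Qs k) (s : Sym Wk) : ((MM k).δ q s).ncard ≤ 2 := by
  have key : ∃ x y, (MM k).δ q s ⊆ {x, y} := by
    have h0 : ∀ x y, (MM k).δ q s ⊆ {x, y} ↔ ∀ z, Del k q s z → z = x ∨ z = y := by
      intro x y
      constructor
      · intro h z hz
        exact h hz
      · intro h z hz
        exact h z hz
    simp only [h0]
    cases q with
    | guess =>
      cases s with
      | lend => exact ⟨(.acc, .mA, .left), (.acc, .mA, .left), fun z hz => by cases hz⟩
      | rend =>
        refine ⟨(.ret 1, .mA, .left), (.ret 1, .mA, .left), fun z hz => ?_⟩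
        cases hz
        exact Or.inl rfl
      | sym g =>
        by_cases hg : g = .inp .sA
        · subst hg
          refine ⟨(.guess, .inp .sA, .right), (.guess, .mA, .right), fun z hz => ?_⟩
          cases hz
          · exact Or.inl rfl
          · exact Or.inr rfl
        · refine ⟨(.guess, g, .right), (.guess, .mB, .right), fun z hz => ?_⟩
          cases hz
          · exact Or.inl rfl
          · exact absurd rfl hg
          · exact Or.inr rfl
    | ret t =>
      cases s with
      | lend =>
        refine ⟨(.chk t .s0, .mA, .right), (.chk t .s0, .mA, .right), fun z hz => ?_⟩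
        cases hz
        exact Or.inl rfl
      | rend => exact ⟨(.acc, .mA, .left), (.acc, .mA, .left), fun z hz => by cases hz⟩
      | sym g =>
        refine ⟨(.ret t, g, .left), (.ret t, g, .left), fun z hz => ?_⟩
        cases hz
        exact Or.inl rfl
    | chk t s' =>
      cases s with
      | lend => exact ⟨(.acc, .mA, .left), (.acc, .mA, .left), fun z hz => by cases hz⟩
      | rend =>
        by_cases ht : t.val + 1 < k + 2
        · refine ⟨(.ret ⟨t.val + 1, ht⟩, .mA, .left), (.acc, .mA, .right), fun z hz => ?_⟩
          cases hz with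
          | cnext _ t' h =>
            left
            have : t' = ⟨t.val + 1, ht⟩ := Fin.ext h
            rw [this]
          | cacc => exact Or.inr rfl
        · refine ⟨(.acc, .mA, .right), (.acc, .mA, .right), fun z hz => ?_⟩
          cases hz with
          | cnext _ t' h =>
            exfalso
            have := t'.isLt
            omega
          | cacc => exact Or.inr rfl
      | sym g =>
        cases hf : fstep (t, s') g with
        | none =>
          refine ⟨(.acc, .mA, .left), (.acc, .mA, .left), fun z hz => ?_⟩
          cases hz with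
          | cgo x _ x' h =>
            have h' : fstep (x.1, x.2) g = some x' := h
            rw [hf] at h'
            simp at h'
        | some y =>
          refine ⟨(.chk y.1 y.2, g, .right), (.chk y.1 y.2, g, .right), fun z hz => ?_⟩
          cases hz with
          | cgo x _ x' h =>
            have h' : fstep (x.1, x.2) g = some x' := h
            rw [hf] at h'
            simp only [Option.some.injEq] at h'
            rw [h']
            exact Or.inl rfl
    | acc => exact ⟨(.acc, .mA, .left), (.acc, .mA, .left), fun z hz => by cases hz⟩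
  obtain ⟨x, y, h⟩ := key
  have h2 := Set.ncard_insert_le x {y}
  rw [Set.ncard_singleton] at h2
  exact (Set.ncard_le_ncard h (Set.toFinite _)).trans h2

end Pool.Agent.Q230.LAS.V2
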